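import Mathlib

/-!
Reduced words: cones in the Cayley tree of a free group, unique decoding with separators.
-/

set_option autoImplicit false

namespace Pool.Agent.H380TR

universe v

section lists

variable {α : Type*}

/-- unique decoding: `ψ` is an unbordered separator which is not a factor of `w`, `w'` -/
lemma decode_aux {ψ w w' g g' : List α} (h : w ++ ψ ++ g = w' ++ ψ ++ g')
    (hw' : ¬ ψ <:+: w') (hub : ∀ k, 0 < k → k < ψ.length → ψ.drop k ≠ ψ.take (ψ.length - k))
    (hle : w.length ≤ w'.length) : w = w' := by
  have h0 : w <+: w' := by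
    apply List.prefix_of_prefix_length_le (l₃ := w ++ ψ ++ g) ⟨ψ ++ g, by simp⟩ ?_ hle
    rw [h]
    exact ⟨ψ ++ g', by simp⟩
  obtain ⟨r, rfl⟩ := h0
  rcases Nat.eq_zero_or_pos r.length with hr | hr
  · rw [List.length_eq_zero_iff] at hr
    rw [hr, List.append_nil]
  · exfalso
    have h1 : ψ ++ g = r ++ (ψ ++ g') := by
      simp only [List.append_assoc] at h
      exact List.append_cancel_left h
    by_cases hlen : ψ.length ≤ r.length
    · have : ψ <+: r := by
        apply List.prefix_of_prefix_length_le (l₃ := ψ ++ g) ⟨g, rfl⟩ ?_ hlen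
        rw [h1]
        exact ⟨_, rfl⟩
      exact hw' (this.isInfix.trans ⟨w, [], by simp⟩)
    · push Not at hlen
      apply hub r.length hr hlen
      have h2 : r = ψ.take r.length := by
        have := congrArg (List.take r.length) h1
        rw [List.take_append_of_le_length hlen.le, List.take_left] at this
        exact this.symm
      have h3 : ψ.drop r.length ++ g = ψ ++ g' := by
        have := congrArg (List.drop r.length) h1
        rw [List.drop_append_of_le_length hlen.le, List.drop_left] at this
        exact this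
      have h4 := congrArg (List.take (ψ.length - r.length)) h3
      rw [List.take_append_of_le_length (by rw [List.length_drop]),
        List.take_append_of_le_length (by omega), List.take_of_length_le] at h4
      · exact h4
      · rw [List.length_drop]

lemma decode {ψ w w' g g' : List α} (h : w ++ ψ ++ g = w' ++ ψ ++ g') (hw : ¬ ψ <:+: w)
    (hw' : ¬ ψ <:+: w') (hub : ∀ k, 0 < k → k < ψ.length → ψ.drop k ≠ ψ.take (ψ.length - k)) :
    w = w' ∧ g = g' := by
  have h1 : w = w' := by
    rcases le_total w.length w'.length with hle | hle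
    · exact decode_aux h hw' hub hle
    · exact (decode_aux h.symm hw hub hle).symm
  refine ⟨h1, ?_⟩
  rw [h1] at h
  exact List.append_cancel_left h

/-- the separator `x ^ L q y ^ L` is unbordered -/
lemma unbordered {x y q₀ : α} {q : List α} {L : ℕ} (hL : (q₀ :: q).length < L) (hxq : x ≠ q₀)
    (hxy : x ≠ y) (k : ℕ)
    (hk : 0 < k) (hk' : k < (List.replicate L x ++ (q₀ :: q) ++ List.replicate L y).length) :
    (List.replicate L x ++ (q₀ :: q) ++ List.replicate L y).drop k ≠
      (List.replicate L x ++ (q₀ :: q) ++ List.replicate L y).take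
        ((List.replicate L x ++ (q₀ :: q) ++ List.replicate L y).length - k) := by
  set ψ := List.replicate L x ++ (q₀ :: q) ++ List.replicate L y with hψ
  have hlen : ψ.length = L + (q₀ :: q).length + L := by
    rw [hψ]; simp only [List.length_append, List.length_replicate]
  have hx : ∀ i, i < L → ψ[i]? = some x := by
    intro i hi
    rw [hψ, List.append_assoc, List.getElem?_append_left (by simpa using hi)]
    simp [hi]
  have hy : ∀ i, L + (q₀ :: q).length ≤ i → i < ψ.length → ψ[i]? = some y := by
    intro i hi hi'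
    rw [hψ, List.getElem?_append_right (by
      simp only [List.length_append, List.length_replicate]; omega)]
    rw [List.getElem?_replicate, if_pos]
    simp only [List.length_append, List.length_replicate]
    omega
  have hq : ψ[L]? = some q₀ := by
    rw [hψ, List.append_assoc, List.getElem?_append_right (by simp)]
    simp
  intro heq
  have hshift : ∀ j, j < ψ.length - k → ψ[k + j]? = ψ[j]? := by
    intro j hj
    have := congrArg (fun l => l[j]?) heq
    simp only [List.getElem?_drop, List.getElem?_take, if_pos hj] at this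
    exact this
  have hLpos : 0 < L := by omega
  by_cases h1 : ψ.length - k ≤ L
  · have h2 := hshift 0 (by omega)
    rw [add_zero, hx 0 hLpos, hy k (by omega) hk'] at h2
    exact hxy (Option.some.inj h2).symm
  · push Not at h1
    by_cases h2 : k ≤ L
    · have h3 := hshift (L - k) (by omega)
      rw [show k + (L - k) = L by omega, hq, hx _ (by omega)] at h3
      exact hxq (Option.some.inj h3).symm
    · push Not at h2
      have hm : 1 ≤ (q₀ :: q).length := by simp
      have h3 := hshift (L - 1) (by omega)
      rw [hx (L - 1) (by omega), hy (k + (L - 1)) (by omega) (by omega)] at h3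
      exact hxy (Option.some.inj h3).symm

lemma infix_strip {a b z z' : α} {l p : List α} (h : (z :: (p ++ [z'])) <:+: (a :: (l ++ [b]))) :
    p <:+: l := by
  obtain ⟨s, t, h⟩ := h
  have h1 : (p ++ [z']) <:+: (l ++ [b]) := by
    cases s with
    | nil =>
      simp only [List.nil_append, List.cons_append, List.cons.injEq] at h
      exact ⟨[], t, by simpa using h.2⟩
    | cons s₀ s =>
      simp only [List.cons_append, List.cons.injEq] at h
      exact ⟨s ++ [z], t, by simpa using h.2⟩
  obtain ⟨s, t, h⟩ := h1
  rcases List.eq_nil_or_concat t with rfl | ⟨t', c, rfl⟩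
  · rw [List.append_nil, ← List.append_assoc] at h
    have := List.append_inj_left' h rfl
    exact ⟨s, [], by rw [List.append_nil]; exact this⟩
  · rw [List.concat_eq_append, ← List.append_assoc] at h
    have := List.append_inj_left' h rfl
    exact ⟨s, [z'] ++ t', by rw [← this]; simp⟩

end lists

section fg

open FreeGroup
open FreeGroup (IsReduced)

variable {ι : Type v} [DecidableEq ι]

/-- the inverse letter -/
def il (a : ι × Bool) : ι × Bool := (a.1, !a.2)

omit [DecidableEq ι] in
lemma red_pair_iff (a b : ι × Bool) : (a.1 = b.1 → a.2 = b.2) ↔ b ≠ il a := by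
  obtain ⟨a1, a2⟩ := a
  obtain ⟨b1, b2⟩ := b
  simp only [il, ne_eq, Prod.mk.injEq]
  cases a2 <;> cases b2 <;> simp [eq_comm]

omit [DecidableEq ι] in
lemma red_pair_iff' (a b : ι × Bool) : (a.1 = b.1 → a.2 = b.2) ↔ a ≠ il b := by
  obtain ⟨a1, a2⟩ := a
  obtain ⟨b1, b2⟩ := b
  simp only [il, ne_eq, Prod.mk.injEq]
  cases a2 <;> cases b2 <;> simp

/-- there are at least four letters -/
lemma exists_letter (h : ∃ i j : ι, i ≠ j) (a b c : ι × Bool) : ∃ d, d ≠ a ∧ d ≠ b ∧ d ≠ c := by
  obtain ⟨i, j, hij⟩ := h
  by_contra hcon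
  push Not at hcon
  have hsub : ({(i, true), (i, false), (j, true), (j, false)} : Finset (ι × Bool)) ⊆ {a, b, c} := by
    intro d _
    simp only [Finset.mem_insert, Finset.mem_singleton]
    by_cases h1 : d = a
    · exact Or.inl h1
    · by_cases h2 : d = b
      · exact Or.inr (Or.inl h2)
      · exact Or.inr (Or.inr (hcon d h1 h2))
  have h1 := Finset.card_le_card hsub
  have h2 : ({(i, true), (i, false), (j, true), (j, false)} : Finset (ι × Bool)).card = 4 := by
    rw [Finset.card_insert_of_notMem, Finset.card_insert_of_notMem, Finset.card_insert_of_notMem,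
      Finset.card_singleton]
    all_goals simp [hij]
  have h3 := Finset.card_le_three (a := a) (b := b) (c := c)
  omega

lemma isReduced_cons {a : ι × Bool} {L : List (ι × Bool)} (hL : IsReduced L)
    (h : ∀ b ∈ L.head?, b ≠ il a) : IsReduced (a :: L) := by
  cases L with
  | nil => exact IsReduced.singleton
  | cons b L =>
    rw [isReduced_cons_cons]
    exact ⟨(red_pair_iff a b).mpr (h b rfl), hL⟩

lemma isReduced_append {L L' : List (ι × Bool)} (hL : IsReduced L) (hL' : IsReduced L')
    (h : ∀ a ∈ L.getLast?, ∀ b ∈ L'.head?, b ≠ il a) : IsReduced (L ++ L') := by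
  unfold FreeGroup.IsReduced at *
  rw [List.isChain_append]
  exact ⟨hL, hL', fun a ha b hb => (red_pair_iff a b).mpr (h a ha b hb)⟩

lemma ext_left (h2 : ∃ i j : ι, i ≠ j) {L : List (ι × Bool)} (hL : IsReduced L)
    (c c' : ι × Bool) : ∃ a, a ≠ c ∧ a ≠ c' ∧ IsReduced (a :: L) := by
  cases L with
  | nil =>
    obtain ⟨a, h1, h2, _⟩ := exists_letter h2 c c' c
    exact ⟨a, h1, h2, IsReduced.singleton⟩
  | cons b L =>
    obtain ⟨a, h1, h2, h3⟩ := exists_letter h2 c c' (il b)
    exact ⟨a, h1, h2, isReduced_cons_cons.mpr ⟨(red_pair_iff' a b).mpr h3, hL⟩⟩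

lemma ext_right (h2 : ∃ i j : ι, i ≠ j) {L : List (ι × Bool)} (hL : IsReduced L)
    (c c' : ι × Bool) : ∃ a, a ≠ c ∧ a ≠ c' ∧ IsReduced (L ++ [a]) := by
  rcases List.eq_nil_or_concat L with rfl | ⟨L', b, rfl⟩
  · obtain ⟨a, h1, h2, _⟩ := exists_letter h2 c c' c
    exact ⟨a, h1, h2, IsReduced.singleton⟩
  · obtain ⟨a, h1, h2, h3⟩ := exists_letter h2 c c' (il b)
    refine ⟨a, h1, h2, isReduced_append hL IsReduced.singleton ?_⟩
    intro a' ha' b' hb'
    simp only [List.concat_eq_append, List.getLast?_append, List.getLast?_singleton,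
      Option.mem_def, Option.some_or, Option.some.injEq, List.head?_cons] at ha' hb'
    subst ha' hb'
    exact h3

lemma isReduced_replicate (n : ℕ) (x : ι × Bool) : IsReduced (List.replicate n x) := by
  rw [isReduced_iff_reduce_eq, reduce_replicate]

/-- toWord of a product without cancellation -/
lemma toWord_mk_of_reduced {L : List (ι × Bool)} (hL : IsReduced L) : (mk L).toWord = L := by
  rw [toWord_mk, hL.reduce_eq]

lemma toWord_mul_of_reduced {x y : FreeGroup ι} (h : IsReduced (x.toWord ++ y.toWord)) :
    (x * y).toWord = x.toWord ++ y.toWord := by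
  rw [toWord_mul, h.reduce_eq]

/-- one letter step -/
lemma letter_step (a : ι × Bool) (g : FreeGroup ι) :
    (mk [a] * g).toWord = a :: g.toWord ∨
      ∃ b, g.toWord = b :: (mk [a] * g).toWord := by
  have h1 : (mk [a] * g).toWord = reduce (a :: g.toWord) := by
    rw [toWord_mul]
    rfl
  rw [h1, reduce.cons, reduce_toWord]
  cases hg : g.toWord with
  | nil => left; rfl
  | cons b tl =>
    dsimp only
    by_cases h : a.1 = b.1 ∧ a.2 = !b.2
    · right
      exact ⟨b, by rw [if_pos h]⟩
    · left
      rw [if_neg h]

/-- entering a cone means passing through its vertex -/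
lemma cone_cross (w x : FreeGroup ι) (hx : ¬ w.toWord <:+ x.toWord) (L : List (ι × Bool))
    (hL : w.toWord <:+ (mk L * x).toWord) :
    ∃ L₂ L₁, L = L₂ ++ L₁ ∧ mk L₁ * x = w := by
  induction L with
  | nil =>
    exfalso
    apply hx
    rwa [← one_eq_mk, one_mul] at hL
  | cons a L ih =>
    by_cases h : w.toWord <:+ (mk L * x).toWord
    · obtain ⟨L₂, L₁, rfl, h9⟩ := ih h
      exact ⟨a :: L₂, L₁, rfl, h9⟩
    · have h1 : mk (a :: L) * x = mk [a] * (mk L * x) := by
        rw [← mul_assoc, mul_mk]
        rfl
      rcases letter_step a (mk L * x) with h2 | ⟨b, h2⟩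
      · rw [h1, h2, List.suffix_cons_iff] at hL
        rcases hL with h3 | h3
        · refine ⟨[], a :: L, rfl, ?_⟩
          rw [h1]
          apply toWord_injective
          rw [h2, h3]
        · exact absurd h3 h
      · exfalso
        apply h
        rw [h2]
        rw [h1] at hL
        exact hL.trans (List.suffix_cons _ _)

lemma norm_eq (x : FreeGroup ι) : x.norm = x.toWord.length := rfl

/-- a path with jumps of size at most `R` which ends in the cone of `w` has a vertex in the cone
near `w` -/
lemma cone_path {R : ℕ} (w : FreeGroup ι) (l : List (FreeGroup ι)) (hl : ∀ s ∈ l, s.norm ≤ R)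
    (h : w.toWord <:+ l.prod.toWord) :
    ∃ l₂ l₁, l = l₂ ++ l₁ ∧ w.toWord <:+ l₁.prod.toWord ∧ (l₁.prod * w⁻¹).norm ≤ R := by
  induction l with
  | nil =>
    refine ⟨[], [], rfl, h, ?_⟩
    have : w.toWord = [] := by
      rw [List.prod_nil, toWord_one] at h
      exact List.eq_nil_of_suffix_nil h
    rw [toWord_eq_nil_iff] at this
    subst this
    simp
  | cons s l ih =>
    by_cases h' : w.toWord <:+ l.prod.toWord
    · obtain ⟨l₂, l₁, rfl, h1, h2⟩ := ih (fun s hs => hl s (List.mem_cons_of_mem _ hs)) h'
      exact ⟨s :: l₂, l₁, rfl, h1, h2⟩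
    · refine ⟨[], s :: l, rfl, h, ?_⟩
      rw [List.prod_cons] at h ⊢
      rw [← mk_toWord (x := s)] at h
      obtain ⟨L₂, L₁, hL, h1⟩ := cone_cross w l.prod h' s.toWord h
      have h2 : s * l.prod * w⁻¹ = mk L₂ := by
        have h3 : s = mk L₂ * mk L₁ := by rw [mul_mk, ← hL, mk_toWord]
        rw [← h1, h3]
        group
      rw [h2]
      calc (mk L₂).norm ≤ L₂.length := norm_mk_le
        _ ≤ s.toWord.length := by rw [hL, List.length_append]; omega
        _ ≤ R := hl s List.mem_cons_self

end fg

end Pool.Agent.H380TR
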