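import Pool.Agent.H380TR.SelfSim
import Pool.Agent.H380TR.Words

/-!
A faithful self-similar action of a nonabelian free group, transitive on the letters, is free in
the strong sense: an element which fixes a letter with trivial section is trivial.
-/

set_option autoImplicit false

namespace Pool.Agent.H380TR

universe u v

open FreeGroup

variable {ι : Type v} [DecidableEq ι]

omit [DecidableEq ι] in
lemma il_il (a : ι × Bool) : il (il a) = a := by simp [il]

omit [DecidableEq ι] in
lemma mk_singleton_pow (d : ι × Bool) (n : ℕ) :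
    (FreeGroup.mk [d]) ^ n = FreeGroup.mk (List.replicate n d) := by
  induction n with
  | zero => rfl
  | succ n ih =>
    rw [pow_succ', ih, mul_mk]
    rfl

omit [DecidableEq ι] in
lemma mk_replicate_inv (d : ι × Bool) (n : ℕ) :
    (FreeGroup.mk (List.replicate n d))⁻¹ = FreeGroup.mk (List.replicate n (il d)) := by
  rw [inv_mk, invRev, List.map_replicate, List.reverse_replicate]
  rfl

/-- conjugates by suitable powers do not commute with a given element -/
lemma exists_not_commute (h2 : ∃ i j : ι, i ≠ j) (a b : FreeGroup ι) (ha : a ≠ 1) (hb : b ≠ 1)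
    (N : ℕ) (hN : 0 < N) : ∃ d e : ι × Bool,
    a * ((FreeGroup.mk [d] ^ N * FreeGroup.mk [e] ^ N) * b *
      (FreeGroup.mk [d] ^ N * FreeGroup.mk [e] ^ N)⁻¹) ≠
    ((FreeGroup.mk [d] ^ N * FreeGroup.mk [e] ^ N) * b *
      (FreeGroup.mk [d] ^ N * FreeGroup.mk [e] ^ N)⁻¹) * a := by
  have ha' : a.toWord ≠ [] := fun h => ha (toWord_eq_nil_iff.mp h)
  have hb' : b.toWord ≠ [] := fun h => hb (toWord_eq_nil_iff.mp h)
  obtain ⟨a₀, a₁, haw⟩ := List.exists_cons_of_ne_nil ha'
  obtain ⟨b₀, b₁, hbw⟩ := List.exists_cons_of_ne_nil hb'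
  set al := a.toWord.getLast ha' with hal
  set bl := b.toWord.getLast hb' with hbl
  have hal' : a.toWord.getLast? = some al := List.getLast?_eq_some_getLast ha'
  have hbl' : b.toWord.getLast? = some bl := List.getLast?_eq_some_getLast hb'
  obtain ⟨d, hd1, hd2, -⟩ := exists_letter h2 (il al) a₀ a₀
  obtain ⟨e, he1, he2, he3⟩ := exists_letter h2 (il d) (il b₀) bl
  refine ⟨d, e, ?_⟩
  set C := List.replicate N d ++ (List.replicate N e ++ (b.toWord ++
    (List.replicate N (il e) ++ List.replicate N (il d)))) with hC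
  have hc : (FreeGroup.mk [d] ^ N * FreeGroup.mk [e] ^ N) * b *
      (FreeGroup.mk [d] ^ N * FreeGroup.mk [e] ^ N)⁻¹ = FreeGroup.mk C := by
    have hb3 : b = FreeGroup.mk b.toWord := mk_toWord.symm
    rw [hC, ← mul_mk, ← mul_mk, ← mul_mk, ← mul_mk, ← hb3, ← mk_replicate_inv,
      ← mk_replicate_inv, ← mk_singleton_pow, ← mk_singleton_pow]
    group
  have hNN : N ≠ 0 := by omega
  have hCred : FreeGroup.IsReduced C := by
    refine isReduced_append (isReduced_replicate _ _) (isReduced_append (isReduced_replicate _ _)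
      (isReduced_append isReduced_toWord (isReduced_append (isReduced_replicate _ _)
      (isReduced_replicate _ _) ?_) ?_) ?_) ?_
    · intro x hx y hy
      rw [Option.mem_def, List.getLast?_replicate, if_neg hNN, Option.some.injEq] at hx
      rw [Option.mem_def, List.head?_replicate, if_neg hNN, Option.some.injEq] at hy
      subst hx hy
      intro h
      rw [il_il] at h
      exact he1 h.symm
    · intro x hx y hy
      rw [hbl', Option.mem_def, Option.some.injEq] at hx
      rw [List.head?_append, List.head?_replicate, if_neg hNN, Option.some_or, Option.mem_def,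
        Option.some.injEq] at hy
      subst hx hy
      intro h
      apply he3
      rw [← il_il e, h, il_il]
    · intro x hx y hy
      rw [Option.mem_def, List.getLast?_replicate, if_neg hNN, Option.some.injEq] at hx
      rw [hbw, List.cons_append, List.head?_cons, Option.mem_def, Option.some.injEq] at hy
      subst hx hy
      intro h
      apply he2
      rw [h, il_il]
    · intro x hx y hy
      rw [Option.mem_def, List.getLast?_replicate, if_neg hNN, Option.some.injEq] at hx
      rw [List.head?_append, List.head?_replicate, if_neg hNN, Option.some_or, Option.mem_def,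
        Option.some.injEq] at hy
      subst hx hy
      exact he1
  have hChead : C.head? = some d := by
    rw [hC, List.head?_append, List.head?_replicate, if_neg hNN, Option.some_or]
  have hClast : C.getLast? = some (il d) := by
    rw [hC]
    simp only [List.getLast?_append, List.getLast?_replicate, if_neg hNN, Option.some_or]
  have h3 : FreeGroup.IsReduced (a.toWord ++ C) := by
    refine isReduced_append isReduced_toWord hCred ?_
    intro x hx y hy
    rw [hal', Option.mem_def, Option.some.injEq] at hx
    rw [hChead, Option.mem_def, Option.some.injEq] at hy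
    subst hx hy
    exact hd1
  have h4 : FreeGroup.IsReduced (C ++ a.toWord) := by
    refine isReduced_append hCred isReduced_toWord ?_
    intro x hx y hy
    rw [hClast, Option.mem_def, Option.some.injEq] at hx
    rw [haw, List.head?_cons, Option.mem_def, Option.some.injEq] at hy
    subst hx hy
    rw [il_il]
    exact hd2.symm
  rw [hc]
  intro h
  have h5 : FreeGroup.mk (a.toWord ++ C) = FreeGroup.mk (C ++ a.toWord) := by
    have e1 : FreeGroup.mk (a.toWord ++ C) = a * FreeGroup.mk C := by
      rw [← mul_mk (L₁ := a.toWord) (L₂ := C), mk_toWord]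
    have e2 : FreeGroup.mk (C ++ a.toWord) = FreeGroup.mk C * a := by
      rw [← mul_mk (L₁ := C) (L₂ := a.toWord), mk_toWord]
    rw [e1, e2]
    exact h
  have h6 := congrArg toWord h5
  rw [toWord_mk_of_reduced h3, toWord_mk_of_reduced h4] at h6
  have h7 := congrArg List.head? h6
  rw [List.head?_append (l := a.toWord), List.head?_append (l := C), hChead, haw,
    List.head?_cons, Option.some_or, Option.some_or, Option.some.injEq] at h7
  exact hd2 h7.symm

namespace SS

variable {X : Type u} (M : SS (FreeGroup ι) X)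

/-- the elements which act trivially on the letters and have trivial section at the letters of a
set -/
def triSet (F : Finset X) : Set (FreeGroup ι) :=
  {g | M.act g = 1 ∧ ∀ x ∈ F, M.sec g x = 1}

omit [DecidableEq ι] in
lemma triSet_conj {F : Finset X} {g h : FreeGroup ι} (hg : g ∈ M.triSet F) (hh : M.act h = 1) :
    h * g * h⁻¹ ∈ M.triSet F := by
  refine ⟨by rw [_root_.map_mul, _root_.map_mul, _root_.map_inv, hg.1, hh]; simp, fun x hx => ?_⟩
  have h1 : M.act h⁻¹ x = x := by rw [_root_.map_inv, hh]; simp
  have h2 : M.sec h⁻¹ x = (M.sec h x)⁻¹ := by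
    have := M.sec_inv h x
    rwa [hh, Equiv.Perm.one_apply] at this
  have h3 : M.act g x = x := by rw [hg.1]; simp
  rw [M.sec_mul, M.sec_mul, h1, h3, hg.2 x hx, h2, mul_one, mul_inv_cancel]

omit [DecidableEq ι] in
lemma triSet_mul {F : Finset X} {g h : FreeGroup ι} (hg : g ∈ M.triSet F) (hh : h ∈ M.triSet F) :
    g * h ∈ M.triSet F := by
  refine ⟨by rw [_root_.map_mul, hg.1, hh.1, one_mul], fun x hx => ?_⟩
  have h3 : M.act h x = x := by rw [hh.1]; simp
  rw [M.sec_mul, h3, hg.2 x hx, hh.2 x hx, mul_one]

omit [DecidableEq ι] in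
lemma triSet_inv {F : Finset X} {g : FreeGroup ι} (hg : g ∈ M.triSet F) : g⁻¹ ∈ M.triSet F := by
  refine ⟨by rw [_root_.map_inv, hg.1, inv_one], fun x hx => ?_⟩
  have := M.sec_inv g x
  rwa [hg.1, Equiv.Perm.one_apply, hg.2 x hx, inv_one] at this

/-- a strong freeness statement -/
theorem free1_of_transitive [Finite X] (h2 : ∃ i j : ι, i ≠ j)
    (hfaith : ∀ g, M.act g = 1 → (∀ x, M.sec g x = 1) → g = 1)
    (htrans : ∀ x y, ∃ g, M.act g x = y) : M.Free1 := by
  classical
  cases nonempty_fintype X
  set N := Fintype.card (Equiv.Perm X) with hN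
  have hNpos : 0 < N := Fintype.card_pos
  have hpow : ∀ g, M.act (g ^ N) = 1 := fun g => by rw [_root_.map_pow, hN, pow_card_eq_one]
  -- the intersection argument
  have key : ∃ x, ∀ g ∈ M.triSet {x}, g = 1 := by
    by_contra hcon
    push Not at hcon
    have hall : ∀ F : Finset X, ∃ g ∈ M.triSet F, g ≠ 1 := by
      intro F
      induction F using Finset.induction_on with
      | empty =>
        obtain ⟨i, j, hij⟩ := h2
        refine ⟨FreeGroup.of i ^ N, ⟨hpow _, by simp⟩, ?_⟩
        intro h
        exact FreeGroup.of_ne_one i ((pow_eq_one_iff_left hNpos.ne').mp h)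
      | insert x F _ ih =>
        obtain ⟨a, ha, ha1⟩ := ih
        obtain ⟨b, hb, hb1⟩ := hcon x
        obtain ⟨d, e, hde⟩ := exists_not_commute h2 a b ha1 hb1 N hNpos
        set g := FreeGroup.mk [d] ^ N * FreeGroup.mk [e] ^ N with hg
        have hg1 : M.act g = 1 := by rw [hg, _root_.map_mul, hpow, hpow, one_mul]
        set c := g * b * g⁻¹ with hc
        have hc1 : c ∈ M.triSet {x} := M.triSet_conj hb hg1
        have h3 : a * c * a⁻¹ * c⁻¹ ∈ M.triSet {x} :=
          M.triSet_mul (M.triSet_conj hc1 ha.1) (M.triSet_inv hc1)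
        have h4 : a * c * a⁻¹ * c⁻¹ ∈ M.triSet F := by
          have := M.triSet_mul ha (M.triSet_conj (M.triSet_inv ha) hc1.1)
          have h5 : a * (c * a⁻¹ * c⁻¹) = a * c * a⁻¹ * c⁻¹ := by group
          rwa [h5] at this
        refine ⟨a * c * a⁻¹ * c⁻¹, ⟨h4.1, ?_⟩, ?_⟩
        · intro y hy
          rcases Finset.mem_insert.mp hy with rfl | hy
          · exact h3.2 y (Finset.mem_singleton_self y)
          · exact h4.2 y hy
        · intro h
          apply hde
          rw [mul_inv_eq_one, mul_inv_eq_iff_eq_mul] at h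
          exact h
    obtain ⟨g, hg, hg1⟩ := hall Finset.univ
    exact hg1 (hfaith g hg.1 (fun x => hg.2 x (Finset.mem_univ x)))
  obtain ⟨x₀, hx₀⟩ := key
  have h3 : ∀ g, M.act g x₀ = x₀ → M.sec g x₀ = 1 → g = 1 := by
    intro g h1 h4
    have h5 : ∀ n : ℕ, M.act (g ^ n) x₀ = x₀ ∧ M.sec (g ^ n) x₀ = 1 := by
      intro n
      induction n with
      | zero => rw [pow_zero]; exact ⟨M.act_one _, M.sec_one _⟩
      | succ n ih =>
        rw [pow_succ, M.act_mul, M.sec_mul, h1, h4, mul_one]
        exact ih
    have h6 : g ^ N = 1 := hx₀ _ ⟨hpow g, fun x hx => by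
      rw [Finset.mem_singleton.mp hx]; exact (h5 N).2⟩
    exact (pow_eq_one_iff_left hNpos.ne').mp h6
  intro g x h1 h4
  obtain ⟨h, rfl⟩ := htrans x₀ x
  have h5 : h⁻¹ * g * h = 1 := by
    apply h3
    · rw [M.act_mul, M.act_mul, h1, M.act_inv_act]
    · rw [M.sec_mul, M.sec_mul, h1, h4, M.sec_inv, mul_one, inv_mul_cancel]
  have h6 : g = h * (h⁻¹ * g * h) * h⁻¹ := by group
  rw [h6, h5, mul_one, mul_inv_cancel]

end SS

end Pool.Agent.H380TR
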