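import Pool.Agent.H380TR.WordLen
import Pool.Agent.H380TR.FreeOne

/-!
Invertible transducers whose group is free nonabelian and transitive on the tree are bireversible
(after identifying states which act in the same way).
-/

set_option autoImplicit false

namespace Pool.Agent.H380TR.Tr

open Pool.Agent.H380TR

/-- An invertible transducer with set of states `Q` over the alphabet `X`: the transition map `δ`
and, for each state `q`, the output permutation `out q` of the alphabet. -/
structure InvTransducer (Q X : Type*) where
  δ : Q → X → Q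
  out : Q → Equiv.Perm X

namespace InvTransducer

variable {Q X : Type*} (A : InvTransducer Q X)

/-- The action of a state on the finite words: `q (x w) = out_q (x) (δ (q, x) (w))`. -/
def act : Q → List X → List X
  | _, [] => []
  | q, x :: w => A.out q x :: act (A.δ q x) w

/-- the action of the inverse of a state -/
def actInv : Q → List X → List X
  | _, [] => []
  | q, y :: w => (A.out q).symm y :: actInv (A.δ q ((A.out q).symm y)) w

lemma actInv_act (q : Q) (w : List X) : A.actInv q (A.act q w) = w := by
  induction w generalizing q with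
  | nil => rfl
  | cons x w ih =>
    simp only [act, actInv, Equiv.symm_apply_apply, ih]

lemma act_actInv (q : Q) (w : List X) : A.act q (A.actInv q w) = w := by
  induction w generalizing q with
  | nil => rfl
  | cons x w ih =>
    simp only [act, actInv, Equiv.apply_symm_apply, ih]

/-- Each state of an invertible transducer acts on the finite words as a bijection. -/
def perm (q : Q) : Equiv.Perm (List X) where
  toFun := A.act q
  invFun := A.actInv q
  left_inv := A.actInv_act q
  right_inv := A.act_actInv q

/-- The group generated by the states. -/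
def group : Subgroup (Equiv.Perm (List X)) := Subgroup.closure (Set.range A.perm)

/-- The transducer is bireversible: for all letters `a` and `b` the maps `q ↦ δ (q, a)` and
`q ↦ δ (q, out_q⁻¹ (b))` are permutations of the states. -/
def Bireversible : Prop :=
  (∀ a : X, Function.Bijective fun q : Q => A.δ q a) ∧
    ∀ b : X, Function.Bijective fun q : Q => A.δ q ((A.out q).symm b)

/-- Two states are equivalent if they act on the words in the same way. -/
def sameAction : Setoid Q := Setoid.ker A.act

lemma out_eq {p q : Q} (h : A.act p = A.act q) : A.out p = A.out q := by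
  ext x
  have := congrFun h [x]
  simpa [act] using this

lemma act_δ_eq {p q : Q} (h : A.act p = A.act q) (x : X) :
    A.act (A.δ p x) = A.act (A.δ q x) := by
  funext w
  have := congrFun h (x :: w)
  simp only [act, List.cons.injEq] at this
  exact this.2

/-- The minimal transducer: states which act in the same way are identified. -/
def minimal : InvTransducer (Quotient A.sameAction) X where
  δ c x := Quotient.map (fun q => A.δ q x) (fun _ _ h => A.act_δ_eq h x) c
  out c := Quotient.lift A.out (fun _ _ h => A.out_eq h) c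

lemma perm_eq_iff {p q : Q} : A.perm p = A.perm q ↔ A.act p = A.act q := by
  constructor
  · intro h
    funext w
    exact congrArg (fun e : Equiv.Perm (List X) => e w) h
  · intro h
    ext1 w
    exact congrFun h w

/-! ### the self-similar structure of the group -/

lemma exists_dec (g : Equiv.Perm (List X)) (hg : g ∈ A.group) :
    g [] = [] ∧ ∃ (σ : Equiv.Perm X) (s : X → A.group), ∀ x w,
      g (x :: w) = σ x :: (s x : Equiv.Perm (List X)) w := by
  induction hg using Subgroup.closure_induction with
  | mem g hg =>
    obtain ⟨q, rfl⟩ := hg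
    exact ⟨rfl, A.out q, fun x => ⟨A.perm (A.δ q x), Subgroup.subset_closure ⟨_, rfl⟩⟩,
      fun x w => rfl⟩
  | one => exact ⟨rfl, 1, fun _ => 1, fun x w => rfl⟩
  | mul g h _ _ hg hh =>
    obtain ⟨h1, σ, s, h2⟩ := hg
    obtain ⟨h3, τ, t, h4⟩ := hh
    refine ⟨by rw [Equiv.Perm.mul_apply, h3, h1], σ * τ, fun x => s (τ x) * t x, fun x w => ?_⟩
    rw [Equiv.Perm.mul_apply, h4, h2]
    rfl
  | inv g _ hg =>
    obtain ⟨h1, σ, s, h2⟩ := hg
    refine ⟨by rw [Equiv.Perm.inv_eq_iff_eq, h1], σ⁻¹, fun x => (s (σ⁻¹ x))⁻¹, fun x w => ?_⟩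
    rw [Equiv.Perm.inv_eq_iff_eq, h2]
    have e1 : ∀ (τ : Equiv.Perm X) (y : X), τ (τ⁻¹ y) = y := fun τ y => τ.apply_symm_apply y
    have e2 : ∀ (τ : Equiv.Perm (List X)) (y : List X), τ (τ⁻¹ y) = y :=
      fun τ y => τ.apply_symm_apply y
    rw [e1, Subgroup.coe_inv, e2]

/-- root permutation -/
noncomputable def root (g : A.group) : Equiv.Perm X := (A.exists_dec g.1 g.2).2.choose

/-- sections -/
noncomputable def sect (g : A.group) : X → A.group :=
  (A.exists_dec g.1 g.2).2.choose_spec.choose

lemma apply_cons (g : A.group) (x : X) (w : List X) :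
    (g : Equiv.Perm (List X)) (x :: w) = A.root g x :: (A.sect g x : Equiv.Perm (List X)) w :=
  (A.exists_dec g.1 g.2).2.choose_spec.choose_spec x w

lemma apply_nil (g : A.group) : (g : Equiv.Perm (List X)) [] = [] := (A.exists_dec g.1 g.2).1

lemma root_eq {g : A.group} {x y : X} {w v : List X}
    (h : (g : Equiv.Perm (List X)) (x :: w) = y :: v) : A.root g x = y := by
  rw [apply_cons, List.cons.injEq] at h
  exact h.1

lemma sect_eq {g : A.group} {x : X} {s : A.group}
    (h : ∀ w, ∃ y, (g : Equiv.Perm (List X)) (x :: w) = y :: (s : Equiv.Perm (List X)) w) :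
    A.sect g x = s := by
  apply Subtype.ext
  ext1 w
  obtain ⟨y, hy⟩ := h w
  rw [apply_cons, List.cons.injEq] at hy
  exact hy.2

/-- the self-similar structure of the group -/
noncomputable def ss : SS A.group X where
  act := permHomOf (fun g x => A.root g x)
    (fun x => A.root_eq (w := []) (v := []) rfl)
    (fun g h x => by
      apply A.root_eq (w := []) (v := (A.sect g (A.root h x) : Equiv.Perm (List X))
        ((A.sect h x : Equiv.Perm (List X)) []))
      rw [Subgroup.coe_mul, Equiv.Perm.mul_apply, apply_cons, apply_cons])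
  sec := A.sect
  sec_mul g h x := by
    apply A.sect_eq
    intro w
    refine ⟨A.root g (A.root h x), ?_⟩
    rw [Subgroup.coe_mul, Equiv.Perm.mul_apply, apply_cons, apply_cons]
    rfl

lemma ss_act (g : A.group) (x : X) : A.ss.act g x = A.root g x := rfl

lemma ss_sec (g : A.group) (x : X) : A.ss.sec g x = A.sect g x := rfl

lemma ss_faithful (g : A.group) (h1 : A.ss.act g = 1) (h2 : ∀ x, A.ss.sec g x = 1) : g = 1 := by
  apply Subtype.ext
  ext1 w
  cases w with
  | nil => rw [apply_nil]; rfl
  | cons x w =>
    rw [apply_cons]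
    have h3 : A.root g x = x := by rw [← ss_act, h1]; rfl
    have h4 : A.sect g x = 1 := h2 x
    rw [h3, h4]
    rfl

/-- the states in the group -/
def st (q : Q) : A.group := ⟨A.perm q, Subgroup.subset_closure ⟨q, rfl⟩⟩

lemma root_st (q : Q) (x : X) : A.root (A.st q) x = A.out q x :=
  A.root_eq (w := []) (v := []) rfl

lemma sect_st (q : Q) (x : X) : A.sect (A.st q) x = A.st (A.δ q x) :=
  A.sect_eq fun _ => ⟨_, rfl⟩

end InvTransducer

/-- transport of a self-similar structure -/
def transport {G H X : Type*} [Group G] [Group H] (M : SS G X) (e : H ≃* G) : SS H X where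
  act := M.act.comp e.toMonoidHom
  sec h x := e.symm (M.sec (e h) x)
  sec_mul g h x := by
    rw [map_mul, M.sec_mul, map_mul]
    rfl

/-- a free group on at most one generator is commutative -/
lemma comm_of_subsingleton {ι : Type*} (h : ∀ i j : ι, i = j) (a b : FreeGroup ι) :
    a * b = b * a := by
  rcases isEmpty_or_nonempty ι with h0 | ⟨⟨i₀⟩⟩
  · have : Subsingleton (FreeGroup ι) := inferInstance
    exact Subsingleton.elim _ _
  · have key : ∀ g : FreeGroup ι, ∃ n : ℤ, g = FreeGroup.of i₀ ^ n := by
      intro g
      induction g using FreeGroup.induction_on with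
      | C1 => exact ⟨0, by simp⟩
      | of i => exact ⟨1, by rw [h i i₀, zpow_one]⟩
      | inv_of i _ => exact ⟨-1, by rw [h i i₀, zpow_neg, zpow_one]⟩
      | mul g g' hg hg' =>
        obtain ⟨n, rfl⟩ := hg
        obtain ⟨m, rfl⟩ := hg'
        exact ⟨n + m, (zpow_add _ _ _).symm⟩
    obtain ⟨n, rfl⟩ := key a
    obtain ⟨m, rfl⟩ := key b
    exact zpow_mul_comm _ _ _

/-- the main step for the group of a transducer -/
theorem eq_one_of_sect {Q X : Type*} [Finite Q] [Finite X] (A : InvTransducer Q X)
    (hfree : IsFreeGroup A.group) (hnc : ∃ g h : A.group, g * h ≠ h * g)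
    (htrans : ∀ x y : X, ∃ g ∈ A.group, g [x] = [y]) (f : A.group) (x : X)
    (hf : A.sect f x = 1) : f = 1 := by
  classical
  cases nonempty_fintype Q
  let e : FreeGroup (IsFreeGroup.Generators A.group) ≃* A.group :=
    (IsFreeGroup.toFreeGroup A.group).symm
  let M := transport A.ss e
  have two : ∃ i j : IsFreeGroup.Generators A.group, i ≠ j := by
    by_contra hcon
    push Not at hcon
    obtain ⟨g, h, hgh⟩ := hnc
    apply hgh
    have := congrArg e (comm_of_subsingleton hcon (e.symm g) (e.symm h))
    simpa using this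
  have hM1 : M.Free1 := by
    apply M.free1_of_transitive two
    · intro g h1 h2
      have h3 : e g = 1 := by
        apply A.ss_faithful (e g) h1
        intro x
        have := h2 x
        exact (MulEquiv.map_eq_one_iff e.symm).mp this
      exact (MulEquiv.map_eq_one_iff e).mp h3
    · intro x y
      obtain ⟨g, hg, hxy⟩ := htrans x y
      refine ⟨e.symm ⟨g, hg⟩, ?_⟩
      show A.root (e (e.symm ⟨g, hg⟩)) x = y
      rw [MulEquiv.apply_symm_apply]
      exact A.root_eq (w := []) (v := []) hxy
  let S : Finset (FreeGroup (IsFreeGroup.Generators A.group)) :=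
    Finset.univ.image (fun q => e.symm (A.st q)) ∪ Finset.univ.image (fun q => (e.symm (A.st q))⁻¹)
  have hS1 : ∀ q, e.symm (A.st q) ∈ S := fun q =>
    Finset.mem_union_left _ (Finset.mem_image_of_mem _ (Finset.mem_univ q))
  have hS2 : ∀ q, (e.symm (A.st q))⁻¹ ∈ S := fun q =>
    Finset.mem_union_right _ (Finset.mem_image_of_mem (fun q => (e.symm (A.st q))⁻¹)
      (Finset.mem_univ q))
  have hinv : ∀ s ∈ S, s⁻¹ ∈ S := by
    intro s hs
    rcases Finset.mem_union.mp hs with h | h
    · obtain ⟨q, _, rfl⟩ := Finset.mem_image.mp h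
      exact hS2 q
    · obtain ⟨q, _, rfl⟩ := Finset.mem_image.mp h
      rw [inv_inv]
      exact hS1 q
  have hsec1 : ∀ q x, M.sec (e.symm (A.st q)) x = e.symm (A.st (A.δ q x)) := by
    intro q x
    show e.symm (A.sect (e (e.symm (A.st q))) x) = _
    rw [MulEquiv.apply_symm_apply, A.sect_st]
  have hsec : ∀ s ∈ S, ∀ x, M.sec s x ∈ S := by
    intro s hs x
    rcases Finset.mem_union.mp hs with h | h
    · obtain ⟨q, _, rfl⟩ := Finset.mem_image.mp h
      rw [hsec1]
      exact hS1 _
    · obtain ⟨q, _, rfl⟩ := Finset.mem_image.mp h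
      have h1 := M.sec_inv (e.symm (A.st q)) (M.act (e.symm (A.st q))⁻¹ x)
      rw [M.act_act_inv] at h1
      rw [h1, hsec1]
      exact hS2 _
  have hgen : Subgroup.closure (S : Set (FreeGroup (IsFreeGroup.Generators A.group))) = ⊤ := by
    rw [eq_top_iff]
    intro g _
    have key : ∀ (k : Equiv.Perm (List X)) (hk : k ∈ A.group), e.symm ⟨k, hk⟩ ∈
        Subgroup.closure (S : Set (FreeGroup (IsFreeGroup.Generators A.group))) := by
      intro k hk
      induction hk using Subgroup.closure_induction with
      | mem k hk =>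
        obtain ⟨q, rfl⟩ := hk
        exact Subgroup.subset_closure (hS1 q)
      | one =>
        have : e.symm (⟨1, Subgroup.one_mem _⟩ : A.group) = 1 := map_one e.symm
        rw [this]
        exact Subgroup.one_mem _
      | mul k l hk hl ihk ihl =>
        have : e.symm (⟨k * l, Subgroup.mul_mem _ hk hl⟩ : A.group) =
            e.symm ⟨k, hk⟩ * e.symm ⟨l, hl⟩ := map_mul e.symm ⟨k, hk⟩ ⟨l, hl⟩
        rw [this]
        exact Subgroup.mul_mem _ ihk ihl
      | inv k hk ihk =>
        have : e.symm (⟨k⁻¹, Subgroup.inv_mem _ hk⟩ : A.group) =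
            (e.symm ⟨k, hk⟩)⁻¹ := map_inv e.symm ⟨k, hk⟩
        rw [this]
        exact Subgroup.inv_mem _ ihk
    have := key (e g).1 (e g).2
    rwa [Subtype.coe_eta, MulEquiv.symm_apply_apply] at this
  have hgood : M.Good S := ⟨hM1, hgen, hsec, two⟩
  have h1 : M.sec (e.symm f) x = 1 := by
    show e.symm (A.sect (e (e.symm f)) x) = 1
    rw [MulEquiv.apply_symm_apply, hf, map_one]
  exact (MulEquiv.map_eq_one_iff e.symm).mp (hgood.eq_one hinv h1)

end Pool.Agent.H380TR.Tr
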