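import Pool.Agent.H380TR.Words

/-!
Growth tightness: a subset of a free group of positive lower relative density in the balls of a
proper length contains every reduced word as a factor of some of its elements.
-/

set_option autoImplicit false

namespace Pool.Agent.H380TR

universe v

/-- a proper length with the division property of a word length -/
structure WLen (G : Type*) [Group G] where
  len : G → ℕ
  one : len 1 = 0
  inv : ∀ g, len g⁻¹ = len g
  mul : ∀ g h, len (g * h) ≤ len g + len h
  split : ∀ g i j, len g ≤ i + j → ∃ a b, g = a * b ∧ len a ≤ i ∧ len b ≤ j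
  fin : ∀ n, {g | len g ≤ n}.Finite

namespace WLen

section basic

variable {G : Type*} [Group G] (W : WLen G)

/-- the ball -/
noncomputable def ball (n : ℕ) : Finset G := (W.fin n).toFinset

lemma mem_ball {n : ℕ} {g : G} : g ∈ W.ball n ↔ W.len g ≤ n := by
  simp [ball]

lemma card_ball_add_le (m n : ℕ) :
    (W.ball (m + n)).card ≤ (W.ball m).card * (W.ball n).card := by
  classical
  have h : W.ball (m + n) ⊆ (W.ball m ×ˢ W.ball n).image (fun p => p.1 * p.2) := by
    intro g hg
    obtain ⟨a, b, rfl, ha, hb⟩ := W.split g m n (W.mem_ball.mp hg)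
    exact Finset.mem_image.mpr ⟨(a, b), Finset.mem_product.mpr ⟨W.mem_ball.mpr ha,
      W.mem_ball.mpr hb⟩, rfl⟩
  calc _ ≤ _ := Finset.card_le_card h
    _ ≤ _ := Finset.card_image_le
    _ = _ := Finset.card_product _ _

lemma one_mem_ball (n : ℕ) : (1 : G) ∈ W.ball n := by
  rw [mem_ball, W.one]
  exact Nat.zero_le _

lemma card_ball_pos (n : ℕ) : 0 < (W.ball n).card := Finset.card_pos.mpr ⟨1, W.one_mem_ball n⟩

lemma ball_mono {m n : ℕ} (h : m ≤ n) : W.ball m ⊆ W.ball n := by
  intro g hg
  rw [mem_ball] at *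
  omega

lemma exists_card_ball_ge [Infinite G] (N : ℕ) : ∃ m, ∀ m', m ≤ m' → N ≤ (W.ball m').card := by
  obtain ⟨s, hs⟩ := Infinite.exists_subset_card_eq G N
  refine ⟨s.sup W.len, fun m' hm' => ?_⟩
  rw [← hs]
  refine Finset.card_le_card fun g hg => ?_
  rw [mem_ball]
  exact (Finset.le_sup hg).trans hm'

end basic

section growth

open FreeGroup

variable {ι : Type v} [DecidableEq ι] (W : WLen (FreeGroup ι))

/-- the set built from `1` by steps -/
inductive Built {G : Type*} [Group G] (A : Set G) (step : G → G → G) : G → Prop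
  | one : Built A step 1
  | step (a g : G) (ha : a ∈ A) (hg : Built A step g) : Built A step (step a g)

lemma ball_growth {G : Type*} [Group G] [Infinite G] (W : WLen G) (A : Set G) (c : ℕ)
    (hc : ∀ n, (W.ball n).card ≤ c * {g | g ∈ A ∧ W.len g ≤ n}.ncard) (step : G → G → G) (C : ℕ)
    (hlen : ∀ a ∈ A, ∀ g, Built A step g → W.len (step a g) ≤ W.len a + W.len g + C)
    (hinj : ∀ a ∈ A, ∀ g, Built A step g → ∀ a' ∈ A, ∀ g', Built A step g' →
      step a g = step a' g' → a = a' ∧ g = g') : False := by
  classical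
  set P : ℕ → Finset G := fun n => (W.ball n).filter (Built A step) with hP
  set b : ℕ → ℕ := fun n => (W.ball n).card with hb
  have hbpos : ∀ n, (0 : ℚ) < b n := fun n => by exact_mod_cast W.card_ball_pos n
  have hPmono : ∀ {m n : ℕ}, m ≤ n → P m ⊆ P n := fun h =>
    Finset.filter_subset_filter _ (W.ball_mono h)
  set D : ℕ → ℚ := fun n => ∑ g ∈ P n, 1 / (b (W.len g) : ℚ) with hD
  have hcpos : 0 < c := by
    have h1 := hc 0
    have h2 := W.card_ball_pos 0
    rcases Nat.eq_zero_or_pos c with h | h
    · rw [h, zero_mul] at h1; omega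
    · exact h
  set κ : ℚ := 1 / (c * b C) with hκ
  have hκpos : 0 < κ := by
    rw [hκ]
    have h1 : (0 : ℚ) < c := by exact_mod_cast hcpos
    have h2 := hbpos C
    positivity
  have hset : ∀ n, {g | g ∈ A ∧ W.len g ≤ n}.ncard = ((W.ball n).filter (· ∈ A)).card := by
    intro n
    rw [← Set.ncard_coe_finset]
    congr 1
    ext g
    simp only [Set.mem_ofPred_eq, Finset.coe_filter, mem_ball]
    tauto
  -- first claim
  have h1 : ∀ n, ∑ g ∈ P n, ((W.ball (n - W.len g)).filter (· ∈ A)).card ≤ (P (n + C)).card := by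
    intro n
    rw [← Finset.card_sigma]
    apply Finset.card_le_card_of_injOn (fun z => step z.2 z.1)
    · rintro ⟨g, a⟩ hz
      simp only [Finset.coe_sigma, Set.mem_sigma_iff, Finset.mem_coe, Finset.mem_filter, mem_ball,
        hP] at hz ⊢
      obtain ⟨⟨h1, h2⟩, h3, h4⟩ := hz
      refine ⟨?_, Built.step a g h4 h2⟩
      have := hlen a h4 g h2
      omega
    · rintro ⟨g, a⟩ hz ⟨g', a'⟩ hz' h
      simp only [Finset.coe_sigma, Set.mem_sigma_iff, Finset.mem_coe, Finset.mem_filter, mem_ball,
        hP] at hz hz'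
      obtain ⟨⟨_, h2⟩, _, h4⟩ := hz
      obtain ⟨⟨_, h2'⟩, _, h4'⟩ := hz'
      obtain ⟨rfl, rfl⟩ := hinj a h4 g h2 a' h4' g' h2' h
      rfl
  have h2 : ∀ n, κ * b (n + C) * D n ≤ (P (n + C)).card := by
    intro n
    have h3 : κ * b (n + C) * D n ≤
        ∑ g ∈ P n, (((W.ball (n - W.len g)).filter (· ∈ A)).card : ℚ) := by
      rw [hD, Finset.mul_sum]
      refine Finset.sum_le_sum fun g hg => ?_
      have hg1 : W.len g ≤ n := W.mem_ball.mp (Finset.mem_filter.mp hg).1
      have h4 : b (n + C) ≤ b (n - W.len g) * b (W.len g) * b C := by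
        calc b (n + C) ≤ b n * b C := W.card_ball_add_le n C
          _ ≤ (b (n - W.len g) * b (W.len g)) * b C := by
            apply Nat.mul_le_mul_right
            have := W.card_ball_add_le (n - W.len g) (W.len g)
            rwa [Nat.sub_add_cancel hg1] at this
      have h5 := hc (n - W.len g)
      rw [hset] at h5
      have h4' : (b (n + C) : ℚ) ≤ b (n - W.len g) * b (W.len g) * b C := by exact_mod_cast h4
      have h5' : (b (n - W.len g) : ℚ) ≤ c * ((W.ball (n - W.len g)).filter (· ∈ A)).card := by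
        exact_mod_cast h5
      have h6 := hbpos (W.len g)
      have h7 := hbpos C
      have h8 : (0 : ℚ) < c := by exact_mod_cast hcpos
      rw [hκ]
      have h9 : 1 / ((c : ℚ) * b C) * b (n + C) * (1 / b (W.len g)) =
          b (n + C) / (c * b C * b (W.len g)) := by
        field_simp
      rw [h9, div_le_iff₀ (by positivity)]
      calc (b (n + C) : ℚ) ≤ b (n - W.len g) * b (W.len g) * b C := h4'
        _ ≤ (c * ((W.ball (n - W.len g)).filter (· ∈ A)).card) * b (W.len g) * b C := by
          gcongr
        _ = _ := by ring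
    refine h3.trans ?_
    exact_mod_cast h1 n
  have hDmono : ∀ {m n : ℕ}, m ≤ n → D m ≤ D n := fun h =>
    Finset.sum_le_sum_of_subset_of_nonneg (hPmono h) (fun g _ _ => by positivity)
  have hD0 : ∀ n, 1 / (b 0 : ℚ) ≤ D n := by
    intro n
    have : (1 : G) ∈ P n := Finset.mem_filter.mpr ⟨W.one_mem_ball n, Built.one⟩
    have h := Finset.single_le_sum (f := fun g => 1 / (b (W.len g) : ℚ))
      (fun g _ => by positivity) this
    simp only [W.one] at h
    exact h
  have hbd : ∀ n, D n ≤ 1 / κ := by
    intro n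
    have h3 := h2 n
    have h4 : ((P (n + C)).card : ℚ) ≤ b (n + C) := by
      exact_mod_cast Finset.card_filter_le _ _
    have h5 := hbpos (n + C)
    rw [le_div_iff₀ hκpos]
    have h6 : (κ * D n) * b (n + C) ≤ 1 * b (n + C) := by linarith
    have := le_of_mul_le_mul_right h6 h5
    linarith
  set δ : ℚ := κ * (1 / b 0) / 2 with hδ
  have hδpos : 0 < δ := by
    have := hbpos 0
    positivity
  have hinc : ∀ n, ∃ m, D n + δ ≤ D m := by
    intro n
    obtain ⟨N, hN⟩ := exists_nat_gt ((P n).card / δ)
    obtain ⟨m₀, hm₀⟩ := W.exists_card_ball_ge N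
    set m := max m₀ n + C with hm
    refine ⟨m, ?_⟩
    have hm1 : N ≤ b m := hm₀ m (by omega)
    have hnm : n ≤ m := by omega
    have h3 : ((P m).card - (P n).card : ℚ) / b m ≤ D m - D n := by
      have h4 : D m - D n = ∑ g ∈ P m \ P n, 1 / (b (W.len g) : ℚ) := by
        show (∑ g ∈ P m, 1 / (b (W.len g) : ℚ)) - (∑ g ∈ P n, 1 / (b (W.len g) : ℚ)) = _
        rw [← Finset.sum_sdiff (hPmono hnm)]
        ring
      rw [h4]
      have h5 : ((P m).card - (P n).card : ℚ) = ((P m \ P n).card : ℚ) := by
        rw [Finset.card_sdiff_of_subset (hPmono hnm), Nat.cast_sub (Finset.card_le_card (hPmono hnm))]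
      rw [h5]
      calc ((P m \ P n).card : ℚ) / b m = ∑ g ∈ P m \ P n, 1 / (b m : ℚ) := by
            rw [Finset.sum_const, nsmul_eq_mul]
            ring
        _ ≤ _ := by
          refine Finset.sum_le_sum fun g hg => ?_
          have hg1 : W.len g ≤ m := W.mem_ball.mp (Finset.mem_filter.mp (Finset.mem_sdiff.mp hg).1).1
          have h6 := hbpos (W.len g)
          have h7 : (b (W.len g) : ℚ) ≤ b m := by
            exact_mod_cast Finset.card_le_card (W.ball_mono hg1)
          exact one_div_le_one_div_of_le h6 h7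
    have h4 := h2 (max m₀ n)
    rw [← hm] at h4
    have h5 := hD0 (max m₀ n)
    have h6 := hbpos m
    have h7 : κ * (1 / b 0) ≤ (P m).card / b m := by
      rw [le_div_iff₀ h6]
      calc κ * (1 / b 0) * b m = κ * b m * (1 / b 0) := by ring
        _ ≤ κ * b m * D (max m₀ n) := by gcongr
        _ ≤ _ := h4
    have h8 : ((P n).card : ℚ) / b m ≤ δ := by
      rw [div_le_iff₀ h6]
      rw [div_lt_iff₀ hδpos] at hN
      have : (N : ℚ) ≤ b m := by exact_mod_cast hm1
      nlinarith
    have h9 : ((P m).card - (P n).card : ℚ) / b m = (P m).card / b m - (P n).card / b m := by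
      ring
    rw [h9] at h3
    have h10 : κ * (1 / b 0) = 2 * δ := by rw [hδ]; ring
    linarith
  have hall : ∀ k : ℕ, ∃ n, k * δ ≤ D n := by
    intro k
    induction k with
    | zero =>
      refine ⟨0, ?_⟩
      have := hD0 0
      have h3 := hbpos 0
      have : 0 ≤ 1 / (b 0 : ℚ) := by positivity
      push_cast
      linarith
    | succ k ih =>
      obtain ⟨n, hn⟩ := ih
      obtain ⟨m, hm⟩ := hinc n
      refine ⟨m, ?_⟩
      push_cast
      linarith
  obtain ⟨k, hk⟩ := exists_nat_gt (1 / κ / δ)
  obtain ⟨n, hn⟩ := hall k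
  have := hbd n
  rw [div_lt_iff₀ hδpos] at hk
  linarith

/-- **Growth tightness.** -/
theorem exists_infix (h2 : ∃ i j : ι, i ≠ j) (L₀ : ℕ) (hL₀ : ∀ a : ι × Bool, W.len (FreeGroup.mk [a]) ≤ L₀)
    (A : Set (FreeGroup ι)) (c : ℕ)
    (hc : ∀ n, (W.ball n).card ≤ c * {g | g ∈ A ∧ W.len g ≤ n}.ncard) (p : FreeGroup ι) :
    ∃ a ∈ A, p.toWord <:+: a.toWord := by
  by_contra hcon
  push Not at hcon
  obtain ⟨i₀, j₀, hij⟩ := h2
  have h2 : ∃ i j : ι, i ≠ j := ⟨i₀, j₀, hij⟩
  have : Nonempty ι := ⟨i₀⟩
  -- the separator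
  obtain ⟨z', -, -, hz'⟩ := ext_right h2 (isReduced_toWord (x := p)) (i₀, true) (i₀, true)
  obtain ⟨z, -, -, hz⟩ := ext_left h2 hz' (i₀, true) (i₀, true)
  obtain ⟨x, hx1, hx2, -⟩ := exists_letter h2 z (il z) z
  obtain ⟨y, hy1, hy2, -⟩ := exists_letter h2 x (il z') x
  set q : List (ι × Bool) := z :: (p.toWord ++ [z']) with hq
  set L : ℕ := q.length + 1 with hL
  set ψ : List (ι × Bool) := List.replicate L x ++ q ++ List.replicate L y with hψ
  have hψred : FreeGroup.IsReduced ψ := by
    apply isReduced_append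
    · apply isReduced_append (isReduced_replicate _ _) hz
      intro a ha b hb
      rw [Option.mem_def, List.getLast?_replicate, if_neg (by omega), Option.some.injEq] at ha
      rw [hq, List.head?_cons, Option.mem_def, Option.some.injEq] at hb
      subst ha hb
      intro h
      apply hx2
      rw [h]
      simp [il]
    · exact isReduced_replicate _ _
    · intro a ha b hb
      rw [Option.mem_def, List.head?_replicate, if_neg (by omega), Option.some.injEq] at hb
      have : a = z' := by
        rw [hq, ← List.cons_append, ← List.append_assoc, List.getLast?_append] at ha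
        simpa using ha.symm
      subst this hb
      exact hy2
  have hW : ∀ a : FreeGroup ι, ∃ β' β : ι × Bool, FreeGroup.IsReduced (β' :: (a.toWord ++ [β])) ∧
      β ≠ il x ∧ β' ≠ il y := by
    intro a
    obtain ⟨β, h1, -, h3⟩ := ext_right h2 (isReduced_toWord (x := a)) (il x) (il x)
    obtain ⟨β', h4, -, h5⟩ := ext_left h2 h3 (il y) (il y)
    exact ⟨β', β, h5, h1, h4⟩
  choose β' β hred hβ hβ' using hW
  let Wd : FreeGroup ι → List (ι × Bool) := fun a => β' a :: (a.toWord ++ [β a])
  let step : FreeGroup ι → FreeGroup ι → FreeGroup ι := fun a g =>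
    FreeGroup.mk (Wd a) * FreeGroup.mk ψ * g
  have hWψ : ∀ a, FreeGroup.IsReduced (Wd a ++ ψ) := by
    intro a
    apply isReduced_append (hred a) hψred
    intro c hc d hd
    have h3 : c = β a := by
      have h9 : Wd a = (β' a :: a.toWord) ++ [β a] := rfl
      have h10 : (Wd a).getLast? = some (β a) := by
        rw [h9, List.getLast?_append]
        simp
      rw [h10] at hc
      simpa using hc.symm
    have h4 : d = x := by
      rw [hψ, List.append_assoc, hL, List.replicate_succ, List.cons_append, List.head?_cons] at hd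
      simpa using hd.symm
    subst h3 h4
    intro h
    apply hβ a
    rw [h]
    simp [il]
  have htw : ∀ a g, (∀ d ∈ g.toWord.head?, d ≠ il y) →
      (step a g).toWord = Wd a ++ ψ ++ g.toWord := by
    intro a g hg
    have h3 : FreeGroup.IsReduced (Wd a ++ ψ ++ g.toWord) := by
      apply isReduced_append (hWψ a) isReduced_toWord
      intro c hc d hd
      have h4 : c = y := by
        rw [hψ, List.getLast?_append, List.getLast?_append, List.getLast?_replicate,
          if_neg (by omega)] at hc
        simpa using hc.symm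
      rw [h4]
      exact hg d hd
    have h4 : step a g = FreeGroup.mk (Wd a ++ ψ ++ g.toWord) := by
      have h5 : g = FreeGroup.mk g.toWord := mk_toWord.symm
      show FreeGroup.mk (Wd a) * FreeGroup.mk ψ * g = _
      conv_lhs => rw [h5]
      rw [mul_mk, mul_mk]
    rw [h4, toWord_mk_of_reduced h3]
  have hhead : ∀ g, Built A step g → ∀ d ∈ g.toWord.head?, d ≠ il y := by
    intro g hg
    induction hg with
    | one =>
      intro d hd
      simp at hd
    | step a g _ _ ih =>
      intro d hd
      rw [htw a g ih] at hd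
      have : d = β' a := by
        simp only [Wd, List.cons_append, List.head?_cons, Option.mem_def, Option.some.injEq] at hd
        exact hd.symm
      rw [this]
      exact hβ' a
  have hnot : ∀ a ∈ A, ¬ ψ <:+: Wd a := by
    intro a ha h
    apply hcon a ha
    have h3 : q <:+: Wd a := by
      refine List.IsInfix.trans ?_ h
      exact ⟨List.replicate L x, List.replicate L y, rfl⟩
    exact infix_strip h3
  have hub : ∀ k, 0 < k → k < ψ.length → ψ.drop k ≠ ψ.take (ψ.length - k) := by
    intro k hk hk'
    exact unbordered (Nat.lt_succ_self _) hx1 hy1.symm k hk hk'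
  have : Infinite (FreeGroup ι) := inferInstance
  refine ball_growth W A c hc step (L₀ + L₀ + W.len (FreeGroup.mk ψ)) ?_ ?_
  · intro a _ g _
    have h3 : step a g = (FreeGroup.mk [β' a] * a * FreeGroup.mk [β a]) * FreeGroup.mk ψ * g := by
      show FreeGroup.mk (Wd a) * FreeGroup.mk ψ * g = _
      have h5 : a = FreeGroup.mk a.toWord := mk_toWord.symm
      have h6 : FreeGroup.mk (Wd a) = FreeGroup.mk [β' a] * a * FreeGroup.mk [β a] := by
        have h10 : FreeGroup.mk [β' a] * a * FreeGroup.mk [β a] =
            FreeGroup.mk [β' a] * FreeGroup.mk a.toWord * FreeGroup.mk [β a] := by rw [mk_toWord]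
        rw [h10, mul_mk, mul_mk]
        rfl
      rw [h6]
    rw [h3]
    have h4 := W.mul ((FreeGroup.mk [β' a] * a * FreeGroup.mk [β a]) * FreeGroup.mk ψ) g
    have h5 := W.mul (FreeGroup.mk [β' a] * a * FreeGroup.mk [β a]) (FreeGroup.mk ψ)
    have h6 := W.mul (FreeGroup.mk [β' a] * a) (FreeGroup.mk [β a])
    have h7 := W.mul (FreeGroup.mk [β' a]) a
    have h8 := hL₀ (β' a)
    have h9 := hL₀ (β a)
    omega
  · intro a ha g hg a' ha' g' hg' h
    have h3 := congrArg FreeGroup.toWord h
    rw [htw a g (hhead g hg), htw a' g' (hhead g' hg')] at h3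
    obtain ⟨h4, h5⟩ := decode h3 (hnot a ha) (hnot a' ha') hub
    refine ⟨?_, toWord_injective h5⟩
    apply toWord_injective
    simp only [Wd, List.cons.injEq] at h4
    exact (List.append_inj' h4.2 rfl).1

end growth

end WLen

end Pool.Agent.H380TR
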