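import Pool.Agent.H380TR.Levels
import Pool.Agent.H380TR.Growth

/-!
Sections are almost isometric, and an element with a trivial section is trivial.
-/

set_option autoImplicit false

namespace Pool.Agent.H380TR

universe u v

lemma exists_idem {α : Type*} (B : Finset α) (F : α → α) (hF : ∀ g ∈ B, F g ∈ B) :
    ∃ m, 0 < m ∧ ∀ g ∈ B, F^[m] (F^[m] g) = F^[m] g := by
  have hF' : ∀ m, ∀ g ∈ B, F^[m] g ∈ B := by
    intro m
    induction m with
    | zero => intro g hg; exact hg
    | succ m ih =>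
      intro g hg
      rw [Function.iterate_succ_apply]
      exact ih _ (hF g hg)
  have key : ∃ i p, 0 < p ∧ ∀ g ∈ B, F^[i + p] g = F^[i] g := by
    let φ : ℕ → (B → B) := fun m g => ⟨F^[m] g.1, hF' m g.1 g.2⟩
    obtain ⟨i, j, hij, h⟩ := Finite.exists_ne_map_eq_of_infinite φ
    have h' : ∀ g ∈ B, F^[i] g = F^[j] g := by
      intro g hg
      exact congrArg Subtype.val (congrFun h ⟨g, hg⟩)
    rcases lt_or_gt_of_ne hij with h1 | h1
    · exact ⟨i, j - i, by omega, fun g hg => by
        rw [Nat.add_sub_cancel' h1.le]; exact (h' g hg).symm⟩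
    · exact ⟨j, i - j, by omega, fun g hg => by
        rw [Nat.add_sub_cancel' h1.le]; exact h' g hg⟩
  obtain ⟨i, p, hp, h⟩ := key
  have h1 : ∀ t, ∀ g ∈ B, F^[t + i + p] g = F^[t + i] g := by
    intro t g hg
    rw [add_assoc, Function.iterate_add_apply, h g hg, ← Function.iterate_add_apply]
  have h2 : ∀ k t, ∀ g ∈ B, F^[t + i + k * p] g = F^[t + i] g := by
    intro k
    induction k with
    | zero => intro t g _; rw [zero_mul, add_zero]
    | succ k ih =>
      intro t g hg
      have : t + i + (k + 1) * p = (t + k * p) + i + p := by ring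
      rw [this, h1 _ g hg]
      have : t + k * p + i = t + i + k * p := by ring
      rw [this, ih t g hg]
  have hle : i ≤ (i + 1) * p := by nlinarith
  refine ⟨(i + 1) * p, by positivity, fun g hg => ?_⟩
  rw [← Function.iterate_add_apply]
  have := h2 (i + 1) ((i + 1) * p - i) g hg
  rwa [Nat.sub_add_cancel hle] at this

open FreeGroup

variable {ι : Type v} [DecidableEq ι] {X : Type u}

/-- the assumptions for the metric argument -/
structure Hyp (M : SS (FreeGroup ι) X) (W : WLen (FreeGroup ι)) (S : Set (FreeGroup ι))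
    (R L₀ c : ℕ) : Prop where
  two : ∃ i j : ι, i ≠ j
  sec_le : ∀ g x, W.len (M.sec g x) ≤ W.len g
  rep : ∀ g, ∃ l : List (FreeGroup ι), (∀ s ∈ l, s ∈ S) ∧ l.prod = g ∧ l.length = W.len g
  le : ∀ l : List (FreeGroup ι), (∀ s ∈ l, s ∈ S) → W.len l.prod ≤ l.length
  norm_le : ∀ s ∈ S, s.norm ≤ R
  letter : ∀ a : ι × Bool, W.len (FreeGroup.mk [a]) ≤ L₀
  dense : ∀ n, (W.ball n).card ≤
    c * {g | g ∈ {g | ∀ u, W.len (M.secL g u) = W.len g} ∧ W.len g ≤ n}.ncard

namespace Hyp

variable {M : SS (FreeGroup ι) X} {W : WLen (FreeGroup ι)} {S : Set (FreeGroup ι)}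
    {R L₀ c : ℕ}

section

variable (W)

omit [DecidableEq ι] in
lemma len_mul_right_ge (g h : FreeGroup ι) : W.len g ≤ W.len (g * h) + W.len h := by
  have := W.mul (g * h) h⁻¹
  rw [mul_inv_cancel_right, W.inv] at this
  exact this

omit [DecidableEq ι] in
lemma len_mul_left_ge (g h : FreeGroup ι) : W.len h ≤ W.len (g * h) + W.len g := by
  have := W.mul g⁻¹ (g * h)
  rw [inv_mul_cancel_left, W.inv] at this
  omega

end

variable (H : Hyp M W S R L₀ c)

include H

lemma len_mk_le (l : List (ι × Bool)) : W.len (FreeGroup.mk l) ≤ L₀ * l.length := by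
  induction l with
  | nil =>
    have : (FreeGroup.mk [] : FreeGroup ι) = 1 := rfl
    rw [this, W.one]
    exact Nat.zero_le _
  | cons a l ih =>
    have h1 : FreeGroup.mk (a :: l) = FreeGroup.mk [a] * FreeGroup.mk l := by
      rw [mul_mk]; rfl
    rw [h1, List.length_cons]
    have h2 := W.mul (FreeGroup.mk [a]) (FreeGroup.mk l)
    have h3 := H.letter a
    nlinarith

lemma len_le (g : FreeGroup ι) : W.len g ≤ L₀ * g.norm := by
  have := H.len_mk_le g.toWord
  rwa [mk_toWord] at this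

lemma norm_le' (g : FreeGroup ι) : g.norm ≤ R * W.len g := by
  obtain ⟨l, hl, rfl, hlen⟩ := H.rep g
  rw [← hlen]
  clear hlen
  induction l with
  | nil => simp
  | cons s l ih =>
    rw [List.prod_cons, List.length_cons]
    have h1 := norm_mul_le s l.prod
    have h2 := H.norm_le s (hl s List.mem_cons_self)
    have h3 := ih (fun s hs => hl s (List.mem_cons_of_mem _ hs))
    nlinarith

lemma secL_le (g : FreeGroup ι) (u : List X) : W.len (M.secL g u) ≤ W.len g := by
  induction u generalizing g with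
  | nil => exact le_rfl
  | cons x u ih => exact (ih _).trans (H.sec_le g x)

/-- factors of elements with sections of constant length -/
lemma core_factor {c₁ c₂ c₃ : FreeGroup ι}
    (ha : ∀ u, W.len (M.secL (c₃ * (c₂ * c₁)) u) = W.len (c₃ * (c₂ * c₁)))
    (hadd : W.len c₃ + W.len c₂ + W.len c₁ ≤ W.len (c₃ * (c₂ * c₁))) (u : List X) :
    W.len (M.secL c₂ u) = W.len c₂ := by
  apply le_antisymm (H.secL_le _ _)
  have h1 := ha (M.actL c₁⁻¹ u)
  rw [SS.secL_mul, SS.secL_mul, SS.actL_actL_inv] at h1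
  have h2 := W.mul (M.secL c₃ (M.actL (c₂ * c₁) (M.actL c₁⁻¹ u)))
    (M.secL c₂ u * M.secL c₁ (M.actL c₁⁻¹ u))
  have h3 := W.mul (M.secL c₂ u) (M.secL c₁ (M.actL c₁⁻¹ u))
  have h4 := H.secL_le c₃ (M.actL (c₂ * c₁) (M.actL c₁⁻¹ u))
  have h5 := H.secL_le c₁ (M.actL c₁⁻¹ u)
  omega

/-- every element is close to an element with sections of constant length -/
lemma exists_core_near (p : FreeGroup ι) : ∃ r₁ r₂ : FreeGroup ι, r₁.norm ≤ R ∧ r₂.norm ≤ R ∧
    ∀ u, W.len (M.secL (r₂ * p * r₁⁻¹) u) = W.len (r₂ * p * r₁⁻¹) := by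
  obtain ⟨a, ha, s, t, hst⟩ := W.exists_infix H.two L₀ H.letter _ c H.dense p
  have hra : FreeGroup.IsReduced (s ++ p.toWord ++ t) := by rw [hst]; exact isReduced_toWord
  have hrt : FreeGroup.IsReduced t := (List.isChain_append.mp hra).2.1
  have hrpt : FreeGroup.IsReduced (p.toWord ++ t) := by
    rw [List.append_assoc] at hra
    exact (List.isChain_append.mp hra).2.1
  set a₂ := FreeGroup.mk t with ha₂
  have h1 : a₂.toWord = t := toWord_mk_of_reduced hrt
  have h2 : (p * a₂).toWord = p.toWord ++ t := by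
    rw [toWord_mul_of_reduced (by rw [h1]; exact hrpt), h1]
  obtain ⟨l, hl, hla, hlen⟩ := H.rep a
  have h3 : (p * a₂).toWord <:+ l.prod.toWord := by
    rw [hla, h2, ← hst]
    exact ⟨s, by simp⟩
  obtain ⟨l₃, l', rfl, h4, h5⟩ := cone_path (R := R) (p * a₂) l
    (fun s hs => H.norm_le s (hl s hs)) h3
  have h6 : a₂.toWord <:+ l'.prod.toWord := by
    refine List.IsSuffix.trans ?_ h4
    rw [h2, h1]
    exact ⟨p.toWord, rfl⟩
  obtain ⟨l₂, l₁, rfl, h7, h8⟩ := cone_path (R := R) a₂ l'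
    (fun s hs => H.norm_le s (hl s (List.mem_append_right _ hs))) h6
  refine ⟨l₁.prod * a₂⁻¹, (l₂ ++ l₁).prod * (p * a₂)⁻¹, h8, h5, ?_⟩
  have h9 : (l₂ ++ l₁).prod * (p * a₂)⁻¹ * p * (l₁.prod * a₂⁻¹)⁻¹ = l₂.prod := by
    rw [List.prod_append]
    group
  rw [h9]
  have h10 : a = l₃.prod * (l₂.prod * l₁.prod) := by
    rw [← hla, List.prod_append, List.prod_append]
  apply H.core_factor (c₁ := l₁.prod) (c₃ := l₃.prod)
  · rw [← h10]
    exact ha
  · rw [← h10, ← hlen]
    have h11 := H.le l₃ (fun s hs => hl s (List.mem_append_left _ hs))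
    have h12 := H.le l₂ (fun s hs => hl s (List.mem_append_right _ (List.mem_append_left _ hs)))
    have h13 := H.le l₁ (fun s hs => hl s (List.mem_append_right _ (List.mem_append_right _ hs)))
    rw [List.length_append, List.length_append]
    omega

/-- sections are almost isometric -/
lemma near_iso (p : FreeGroup ι) (v : List X) :
    W.len p ≤ W.len (M.secL p v) + 4 * (L₀ * R) := by
  obtain ⟨r₁, r₂, h1, h2, h3⟩ := H.exists_core_near p
  set q := r₂ * p * r₁⁻¹ with hq
  have hp : p = r₂⁻¹ * (q * r₁) := by rw [hq]; group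
  have e1 : W.len r₁ ≤ L₀ * R := (H.len_le r₁).trans (Nat.mul_le_mul_left _ h1)
  have e2 : W.len r₂⁻¹ ≤ L₀ * R := by
    rw [W.inv]
    exact (H.len_le r₂).trans (Nat.mul_le_mul_left _ h2)
  have e3 : W.len p ≤ W.len q + 2 * (L₀ * R) := by
    have a1 := W.mul r₂⁻¹ (q * r₁)
    have a2 := W.mul q r₁
    rw [← hp] at a1
    omega
  have e4 : M.secL p v = M.secL r₂⁻¹ (M.actL (q * r₁) v) * (M.secL q (M.actL r₁ v) * M.secL r₁ v) := by
    conv_lhs => rw [hp]
    rw [SS.secL_mul, SS.secL_mul]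
  have e5 := len_mul_left_ge W (M.secL r₂⁻¹ (M.actL (q * r₁) v))
    (M.secL q (M.actL r₁ v) * M.secL r₁ v)
  have e6 := len_mul_right_ge W (M.secL q (M.actL r₁ v)) (M.secL r₁ v)
  have e7 := H.secL_le r₂⁻¹ (M.actL (q * r₁) v)
  have e8 := H.secL_le r₁ v
  have e9 := h3 (M.actL r₁ v)
  rw [← e4] at e5
  omega

/-- additivity of the length up to a constant -/
lemma len_suffix {y g : FreeGroup ι} (h : y.toWord <:+ g.toWord) :
    W.len (g * y⁻¹) + W.len y ≤ W.len g + 2 * (L₀ * R) := by
  obtain ⟨l, hl, rfl, hlen⟩ := H.rep g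
  obtain ⟨l₂, l₁, rfl, h4, h5⟩ := cone_path (R := R) y l
    (fun s hs => H.norm_le s (hl s hs)) h
  have e0 : W.len (l₁.prod * y⁻¹) ≤ L₀ * R := (H.len_le _).trans (Nat.mul_le_mul_left _ h5)
  have e1 : (l₂ ++ l₁).prod * y⁻¹ = l₂.prod * (l₁.prod * y⁻¹) := by
    rw [List.prod_append, mul_assoc]
  have e2 := W.mul l₂.prod (l₁.prod * y⁻¹)
  have e3 := len_mul_left_ge W (l₁.prod * y⁻¹) y
  rw [inv_mul_cancel_right] at e3
  have e4 := H.le l₂ (fun s hs => hl s (List.mem_append_left _ hs))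
  have e5 := H.le l₁ (fun s hs => hl s (List.mem_append_right _ hs))
  rw [List.length_append] at hlen
  rw [e1]
  omega

omit [DecidableEq ι] H in
lemma iter_secL (w : List X) (m : ℕ) (g : FreeGroup ι) :
    (fun g => M.secL g w)^[m] g = M.secL g (List.replicate m w).flatten := by
  induction m generalizing g with
  | zero => rfl
  | succ m ih =>
    rw [Function.iterate_succ_apply, ih, List.replicate_succ, List.flatten_cons, SS.secL_append]

omit [DecidableEq ι] H in
lemma secL_mul_inv (g h : FreeGroup ι) (u : List X) :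
    M.secL g u * (M.secL h u)⁻¹ = M.secL (g * h⁻¹) (M.actL h u) := by
  have := M.secL_mul (g * h⁻¹) h u
  rw [inv_mul_cancel_right] at this
  rw [this, mul_inv_cancel_right]

lemma dist_le (g h : FreeGroup ι) (u : List X) :
    W.len (M.secL g u * (M.secL h u)⁻¹) ≤ W.len (g * h⁻¹) := by
  rw [secL_mul_inv]
  exact H.secL_le _ _

lemma dist_ge (g h : FreeGroup ι) (u : List X) :
    W.len (g * h⁻¹) ≤ W.len (M.secL g u * (M.secL h u)⁻¹) + 4 * (L₀ * R) := by
  rw [secL_mul_inv]
  exact H.near_iso _ _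

lemma near_idem (w : List X) (r : ℕ) : ∃ m, 0 < m ∧ ∀ g, W.len g ≤ r →
    W.len (M.secL g (List.replicate m w).flatten * g⁻¹) ≤ 4 * (L₀ * R) := by
  obtain ⟨m, hm, h⟩ := exists_idem (W.ball r) (fun g => M.secL g w) (by
    intro g hg
    rw [WLen.mem_ball] at *
    exact (H.secL_le g w).trans hg)
  refine ⟨m, hm, fun g hg => ?_⟩
  have h1 := h g (W.mem_ball.mpr hg)
  rw [iter_secL, iter_secL] at h1
  have h2 := H.dist_ge (M.secL g (List.replicate m w).flatten) g (List.replicate m w).flatten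
  rw [h1, mul_inv_cancel, W.one] at h2
  omega

section final

variable {f : FreeGroup ι} {x : X} (hf : M.sec f x = 1)

include hf

lemma shift_one (r : ℕ) : ∃ w : List X, ∀ g, W.len g + W.len f ≤ r →
    W.len (M.secL g w * (g * f)⁻¹) ≤ 4 * (L₀ * R) := by
  obtain ⟨m, hm, h⟩ := H.near_idem [x] r
  obtain ⟨m', rfl⟩ : ∃ m', m = m' + 1 := ⟨m - 1, by omega⟩
  refine ⟨M.act f x :: (List.replicate m' [x]).flatten, fun g hg => ?_⟩
  have h1 := h (g * f) ((W.mul g f).trans hg)
  have h2 : M.secL (g * f) (List.replicate (m' + 1) [x]).flatten =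
      M.secL g (M.act f x :: (List.replicate m' [x]).flatten) := by
    rw [List.replicate_succ, List.flatten_cons, List.singleton_append, SS.secL_cons,
      SS.secL_cons, M.sec_mul, hf, mul_one]
  rwa [h2] at h1

lemma shift_pow (n r : ℕ) : ∃ w : List X, ∀ g, W.len g ≤ r →
    W.len (M.secL g w * (g * f ^ n)⁻¹) ≤ n * (4 * (L₀ * R)) := by
  induction n generalizing r with
  | zero =>
    refine ⟨[], fun g _ => ?_⟩
    rw [pow_zero, mul_one, SS.secL_nil, mul_inv_cancel, W.one]
    exact Nat.zero_le _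
  | succ n ih =>
    obtain ⟨w₁, h1⟩ := H.shift_one hf (r + W.len f)
    obtain ⟨w, h2⟩ := ih (r + W.len f)
    refine ⟨w₁ ++ w, fun g hg => ?_⟩
    have h3 := h1 g (by omega)
    have h4 := h2 (g * f) ((W.mul g f).trans (by omega))
    have h5 := H.dist_le (M.secL g w₁) (g * f) w
    have h6 : M.secL g (w₁ ++ w) * (g * f ^ (n + 1))⁻¹ =
        (M.secL (M.secL g w₁) w * (M.secL (g * f) w)⁻¹) *
        (M.secL (g * f) w * (g * f * f ^ n)⁻¹) := by
      rw [SS.secL_append, pow_succ', ← mul_assoc g f]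
      group
    rw [h6]
    have h7 := W.mul (M.secL (M.secL g w₁) w * (M.secL (g * f) w)⁻¹)
      (M.secL (g * f) w * (g * f * f ^ n)⁻¹)
    have h8 : (n + 1) * (4 * (L₀ * R)) = n * (4 * (L₀ * R)) + 4 * (L₀ * R) := by ring
    omega

end final

end Hyp

/-- a short factor cannot cancel a long first part -/
lemma suffix_stay (g : FreeGroup ι) (A B : List (ι × Bool)) (hg : g.toWord = A ++ B)
    (r : List (ι × Bool)) (hr : r.length ≤ A.length) :
    ∃ s, (FreeGroup.mk r * g).toWord = s ++ B ∧ A.length ≤ s.length + r.length := by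
  induction r with
  | nil =>
    refine ⟨A, ?_, by simp⟩
    have : (FreeGroup.mk [] : FreeGroup ι) = 1 := rfl
    rw [this, one_mul, hg]
  | cons a r ih =>
    rw [List.length_cons] at hr
    obtain ⟨s, h1, h2⟩ := ih (by omega)
    have h3 : FreeGroup.mk (a :: r) * g = FreeGroup.mk [a] * (FreeGroup.mk r * g) := by
      rw [← mul_assoc, mul_mk]; rfl
    rw [h3]
    rcases letter_step a (FreeGroup.mk r * g) with h4 | ⟨b, h4⟩
    · exact ⟨a :: s, by rw [h4, h1]; rfl, by rw [List.length_cons, List.length_cons]; omega⟩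
    · cases s with
      | nil =>
        simp only [List.length_nil] at h2
        omega
      | cons c s =>
        rw [h1, List.cons_append, List.cons.injEq] at h4
        refine ⟨s, h4.2.symm, ?_⟩
        simp only [List.length_cons] at h2 ⊢
        omega

namespace Hyp

variable {M : SS (FreeGroup ι) X} {W : WLen (FreeGroup ι)} {S : Set (FreeGroup ι)}
    {R L₀ c : ℕ}

omit [DecidableEq ι] in
lemma exists_good_letter (h2 : ∃ i j : ι, i ≠ j) (o₁ o₂ : Option (ι × Bool)) :
    ∃ d : ι × Bool, (∀ b ∈ o₁, b ≠ il d) ∧ (∀ b ∈ o₂, b ≠ il d) := by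
  classical
  have h2' := h2
  obtain ⟨i₀, -⟩ := h2'
  have key : ∀ o : Option (ι × Bool), ∃ e : ι × Bool, ∀ d, d ≠ e → ∀ b ∈ o, b ≠ il d := by
    intro o
    cases o with
    | none => exact ⟨(i₀, true), fun _ _ b hb => by simp at hb⟩
    | some b =>
      refine ⟨il b, fun d hd b' hb' h => hd ?_⟩
      rw [Option.mem_def, Option.some.injEq] at hb'
      subst hb'
      rw [h]
      simp [il]
  obtain ⟨e₁, h1⟩ := key o₁
  obtain ⟨e₂, h3⟩ := key o₂
  obtain ⟨d, hd1, hd2, -⟩ := exists_letter h2 e₁ e₂ e₁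
  exact ⟨d, h1 d hd1, h3 d hd2⟩

theorem len_pow_le (H : Hyp M W S R L₀ c) {f : FreeGroup ι} {x : X} (hf : M.sec f x = 1) (n : ℕ) :
    W.len (f ^ n) ≤ 12 * (L₀ * R) := by
  set b := f ^ n with hb
  set C₅ := n * (4 * (L₀ * R)) with hC₅
  set K := R * C₅ + 1 with hK
  obtain ⟨w, hw⟩ := H.shift_pow hf n (L₀ * K)
  obtain ⟨m, hm, hm'⟩ := H.near_idem w (W.len b)
  obtain ⟨m', rfl⟩ : ∃ m', m = m' + 1 := ⟨m - 1, by omega⟩
  set h₀ := M.secL b (List.replicate m' w).flatten with hh₀
  have h1 : W.len (M.secL h₀ w * b⁻¹) ≤ 4 * (L₀ * R) := by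
    have h2 := hm' b le_rfl
    rw [List.replicate_succ', List.flatten_append, SS.secL_append] at h2
    simpa using h2
  obtain ⟨d, hd1, hd2⟩ := exists_good_letter H.two b.toWord.head? h₀⁻¹.toWord.head?
  have hlast : ∀ a ∈ (List.replicate K d).getLast?, a = d := by
    intro a ha
    rw [Option.mem_def, List.getLast?_replicate, if_neg (by omega), Option.some.injEq] at ha
    exact ha.symm
  set g := FreeGroup.mk (List.replicate K d) with hg
  have hgw : g.toWord = List.replicate K d := toWord_mk_of_reduced (isReduced_replicate _ _)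
  have hgb : (g * b).toWord = List.replicate K d ++ b.toWord := by
    rw [toWord_mul_of_reduced, hgw]
    rw [hgw]
    apply isReduced_append (isReduced_replicate _ _) isReduced_toWord
    intro a ha e he
    rw [hlast a ha]
    exact hd1 e he
  have hgh : (g * h₀⁻¹).toWord = List.replicate K d ++ h₀⁻¹.toWord := by
    rw [toWord_mul_of_reduced, hgw]
    rw [hgw]
    apply isReduced_append (isReduced_replicate _ _) isReduced_toWord
    intro a ha e he
    rw [hlast a ha]
    exact hd2 e he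
  have hglen : W.len g ≤ L₀ * K := by
    have := H.len_mk_le (List.replicate K d)
    rwa [List.length_replicate] at this
  set P := M.secL g w with hP
  have h2 := hw g hglen
  -- the word of `b` is a suffix of the word of `P`
  have h3 : b.toWord <:+ P.toWord := by
    have h4 : P = FreeGroup.mk (P * (g * b)⁻¹).toWord * (g * b) := by
      rw [mk_toWord, inv_mul_cancel_right]
    have h5 : (P * (g * b)⁻¹).norm ≤ R * C₅ :=
      (H.norm_le' _).trans (Nat.mul_le_mul_left _ h2)
    obtain ⟨s, h6, -⟩ := suffix_stay (g * b) _ _ hgb (P * (g * b)⁻¹).toWord (by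
      rw [List.length_replicate]
      have : (P * (g * b)⁻¹).toWord.length = (P * (g * b)⁻¹).norm := rfl
      omega)
    rw [h4, h6]
    exact ⟨s, rfl⟩
  have h4 := H.len_suffix h3
  have h5 := H.len_suffix (y := h₀⁻¹) (g := g * h₀⁻¹) (by rw [hgh]; exact ⟨_, rfl⟩)
  rw [inv_inv, inv_mul_cancel_right, W.inv] at h5
  have h6 := H.dist_ge g h₀ w
  have h7 : P * (M.secL h₀ w)⁻¹ = (P * b⁻¹) * (M.secL h₀ w * b⁻¹)⁻¹ := by group
  rw [← hP, h7] at h6
  have h8 := W.mul (P * b⁻¹) (M.secL h₀ w * b⁻¹)⁻¹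
  rw [W.inv] at h8
  have h9 := H.secL_le g w
  rw [← hP] at h9
  omega

theorem eq_one (H : Hyp M W S R L₀ c) {f : FreeGroup ι} {x : X} (hf : M.sec f x = 1) : f = 1 := by
  by_contra hne
  have h1 : ¬ IsOfFinOrder f := not_isOfFinOrder_of_isMulTorsionFree hne
  have h2 := injective_pow_iff_not_isOfFinOrder.mpr h1
  have h3 : Set.Infinite (Set.range fun n : ℕ => f ^ n) := Set.infinite_range_of_injective h2
  apply h3
  apply (W.fin (12 * (L₀ * R))).subset
  rintro _ ⟨n, rfl⟩
  exact H.len_pow_le hf n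

end Hyp

end Pool.Agent.H380TR
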