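import Mathlib

/-!
Self-similar structures on a group, and the rank count for the groupoid of a self-similar action.
-/

set_option autoImplicit false

namespace Pool.Agent.H380TR

/-- A self-similar structure of the group `G` over the alphabet `X`: an action on `X` together with
sections. -/
structure SS (G : Type*) [Group G] (X : Type*) where
  act : G →* Equiv.Perm X
  sec : G → X → G
  sec_mul : ∀ g h x, sec (g * h) x = sec g (act h x) * sec h x

/-- permutation action from a function -/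
def permHomOf {G Z : Type*} [Group G] (F : G → Z → Z) (h1 : ∀ z, F 1 z = z)
    (hm : ∀ g h z, F (g * h) z = F g (F h z)) : G →* Equiv.Perm Z where
  toFun g := ⟨F g, F g⁻¹, fun z => by rw [← hm, inv_mul_cancel, h1],
    fun z => by rw [← hm, mul_inv_cancel, h1]⟩
  map_one' := by ext z; exact h1 z
  map_mul' g h := by ext z; exact hm g h z

namespace SS

variable {G : Type*} [Group G] {X Y : Type*}

section basic

variable (M : SS G X)

lemma sec_one (x : X) : M.sec 1 x = 1 := by
  have h := M.sec_mul 1 1 x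
  rw [mul_one, map_one, Equiv.Perm.one_apply] at h
  exact mul_eq_left.mp h.symm

lemma sec_inv (g : G) (x : X) : M.sec g⁻¹ (M.act g x) = (M.sec g x)⁻¹ := by
  have h := M.sec_mul g⁻¹ g x
  rw [inv_mul_cancel, M.sec_one] at h
  exact eq_inv_of_mul_eq_one_left h.symm

lemma act_mul (g h : G) (x : X) : M.act (g * h) x = M.act g (M.act h x) := by
  rw [map_mul, Equiv.Perm.mul_apply]

lemma act_one (x : X) : M.act 1 x = x := by
  rw [map_one, Equiv.Perm.one_apply]

lemma act_inv_act (g : G) (x : X) : M.act g⁻¹ (M.act g x) = x := by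
  rw [← M.act_mul, inv_mul_cancel, M.act_one]

lemma act_act_inv (g : G) (x : X) : M.act g (M.act g⁻¹ x) = x := by
  rw [← M.act_mul, mul_inv_cancel, M.act_one]

/-- an element fixing a letter with trivial section is trivial -/
def Free1 : Prop := ∀ g x, M.act g x = x → M.sec g x = 1 → g = 1

variable {M}

lemma Free1.eq (hM : M.Free1) {g g' : G} {x : X} (h1 : M.act g x = M.act g' x)
    (h2 : M.sec g x = M.sec g' x) : g = g' := by
  have : g'⁻¹ * g = 1 := by
    apply hM _ x
    · rw [M.act_mul, h1, M.act_inv_act]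
    · rw [M.sec_mul, h1, M.sec_inv, h2, inv_mul_cancel]
  exact (inv_mul_eq_one.mp this).symm

end basic

section rank

variable (M : SS G Y)

/-- `y ~ z` if some element moves `y` to `z` with trivial section -/
def cls : Setoid Y where
  r y z := ∃ g, M.act g y = z ∧ M.sec g y = 1
  iseqv :=
    { refl := fun y => ⟨1, M.act_one y, M.sec_one y⟩
      symm := by
        rintro y z ⟨g, rfl, h⟩
        exact ⟨g⁻¹, M.act_inv_act g y, by rw [M.sec_inv, h, inv_one]⟩
      trans := by
        rintro x y z ⟨g, rfl, h⟩ ⟨g', rfl, h'⟩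
        exact ⟨g' * g, M.act_mul _ _ _, by rw [M.sec_mul, h', h, one_mul]⟩ }

lemma cls_iff (y z : Y) : M.cls y z ↔ ∃ g, M.act g y = z ∧ M.sec g y = 1 := Iff.rfl

/-- additive cocycles -/
def IsCoc {K : Type*} [AddCommGroup K] (D : G → Y → K) : Prop :=
  ∀ g h y, D (g * h) y = D g (M.act h y) + D h y

variable {M}

lemma IsCoc.one {K : Type*} [AddCommGroup K] {D : G → Y → K} (hD : M.IsCoc D) (y : Y) :
    D 1 y = 0 := by
  have h := hD 1 1 y
  rw [mul_one, M.act_one] at h
  exact left_eq_add.mp h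

lemma IsCoc.inv {K : Type*} [AddCommGroup K] {D : G → Y → K} (hD : M.IsCoc D) (g : G) (y : Y) :
    D g⁻¹ (M.act g y) = - D g y := by
  have h := hD g⁻¹ g y
  rw [inv_mul_cancel, hD.one] at h
  exact (neg_eq_of_add_eq_zero_left h.symm).symm

lemma IsCoc.sub {K : Type*} [AddCommGroup K] {D D' : G → Y → K} (hD : M.IsCoc D)
    (hD' : M.IsCoc D') : M.IsCoc (fun g y => D g y - D' g y) := by
  intro g h y
  simp only
  rw [hD, hD']
  abel

lemma IsCoc.eq_zero {K : Type*} [AddCommGroup K] {D : G → Y → K} (hD : M.IsCoc D)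
    (S : Set G) (hgen : Subgroup.closure S = ⊤) (h : ∀ s ∈ S, ∀ y, D s y = 0) (g : G) (y : Y) :
    D g y = 0 := by
  have hg : g ∈ Subgroup.closure S := by rw [hgen]; trivial
  induction hg using Subgroup.closure_induction generalizing y with
  | mem x hx => exact h x hx y
  | one => exact hD.one y
  | mul a b _ _ ha hb => rw [hD, ha, hb, add_zero]
  | inv a _ ha =>
    have := hD.inv a (M.act a⁻¹ y)
    rw [M.act_act_inv] at this
    rw [this, ha, neg_zero]

/-- the cocycle vanishes on elements with trivial sections -/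
lemma coc_cls {K : Type*} [AddCommGroup K] {D : G → Y → K} (hM : M.Free1) (hD : M.IsCoc D)
    (b : Y → Y) (t : Y → G) (hb : ∀ y z, M.cls y z → b y = b z)
    (ht : ∀ y, M.act (t y) (b y) = y) (ht' : ∀ y, M.sec (t y) (b y) = 1)
    (h0 : ∀ y, D (t y) (b y) = 0) (g : G) (y : Y) (hg : M.sec g y = 1) : D g y = 0 := by
  have hy : b y = b (M.act g y) := hb _ _ ⟨g, rfl, hg⟩
  have h1 : g * t y = t (M.act g y) := by
    apply hM.eq (x := b y)
    · rw [M.act_mul, ht, hy, ht]
    · rw [M.sec_mul, ht, hg, ht', one_mul, hy, ht']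
  have h2 := hD g (t y) (b y)
  rw [h1, ht, h0, add_zero, hy, h0] at h2
  exact h2.symm

/-- the cocycle vanishes on generators if it vanishes on a representative of each bundle -/
lemma coc_gen {K : Type*} [AddCommGroup K] {D : G → Y → K} (hD : M.IsCoc D)
    (hcl : ∀ g y, M.sec g y = 1 → D g y = 0) (s s₀ : G) (y u₀ : Y) (hu : M.cls u₀ y)
    (hs : M.sec s₀ u₀ = M.sec s y) (h0 : D s₀ u₀ = 0) : D s y = 0 := by
  obtain ⟨t, rfl, ht⟩ := hu
  have h1 := hD s t u₀
  rw [hcl t u₀ ht, add_zero] at h1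
  have h2 : D (s * t * s₀⁻¹) (M.act s₀ u₀) = 0 := by
    apply hcl
    rw [M.sec_mul, M.act_inv_act, M.sec_inv, M.sec_mul, ht, mul_one, hs, mul_inv_cancel]
  have h3 := hD (s * t * s₀⁻¹) s₀ u₀
  rw [h2, h0, inv_mul_cancel_right, add_zero] at h3
  rw [← h1, h3]

open Classical in
/-- **Rank count.** -/
theorem card_le [Fintype Y] (hM : M.Free1) (S : Finset G)
    (hgen : Subgroup.closure (S : Set G) = ⊤) (hsec : ∀ s ∈ S, ∀ y, M.sec s y ∈ S) (x₁ x₂ : G)
    (hcoc : ∀ a b : Y → ZMod 2, ∃ D : G → Y → ZMod 2, M.IsCoc D ∧ D x₁ = a ∧ D x₂ = b) :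
    Fintype.card Y ≤ Fintype.card (Quotient M.cls) * S.card := by
  choose D hD hD1 hD2 using hcoc
  have hout : ∀ y : Y, M.cls (Quotient.out (Quotient.mk M.cls y)) y := fun y =>
    Quotient.exact (Quotient.out_eq _)
  choose t ht ht' using fun y => (M.cls_iff _ _).mp (hout y)
  have hb : ∀ y z, M.cls y z → Quotient.out (Quotient.mk M.cls y) =
      Quotient.out (Quotient.mk M.cls z) := by
    intro y z h
    rw [Quotient.sound h]
  -- representatives of the bundles
  have hrep : ∀ (c : Quotient M.cls × S), ∃ (p : G × Y),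
      (∃ s ∈ S, ∃ u, Quotient.mk M.cls u = c.1 ∧ M.sec s u = c.2) →
      (p.1 ∈ S ∧ Quotient.mk M.cls p.2 = c.1 ∧ M.sec p.1 p.2 = c.2) := by
    intro c
    by_cases h : ∃ s ∈ S, ∃ u, Quotient.mk M.cls u = c.1 ∧ M.sec s u = c.2
    · obtain ⟨s, hs, u, h1, h2⟩ := h
      exact ⟨(s, u), fun _ => ⟨hs, h1, h2⟩⟩
    · exact ⟨(1, Quotient.out c.1), fun h' => absurd h' h⟩
  choose p hp using hrep
  let Ψ : (Y → ZMod 2) × (Y → ZMod 2) → (Y → ZMod 2) × (Quotient M.cls × S → ZMod 2) :=
    fun ab => (fun y => D ab.1 ab.2 (t y) (Quotient.out (Quotient.mk M.cls y)),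
      fun c => D ab.1 ab.2 (p c).1 (p c).2)
  have hinj : Function.Injective Ψ := by
    rintro ⟨a, b⟩ ⟨a', b'⟩ h
    simp only [Ψ, Prod.mk.injEq] at h
    obtain ⟨h1, h2⟩ := h
    have hE : M.IsCoc (fun g y => D a b g y - D a' b' g y) := (hD a b).sub (hD a' b')
    have hcl : ∀ g y, M.sec g y = 1 → (D a b g y - D a' b' g y) = 0 :=
      coc_cls hM hE (fun y => Quotient.out (Quotient.mk M.cls y)) t hb ht ht'
        (fun y => sub_eq_zero.mpr (congrFun h1 y))
    have hall : ∀ g y, (D a b g y - D a' b' g y) = 0 := by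
      apply hE.eq_zero _ hgen
      intro s hs y
      have hc := hp (Quotient.mk M.cls y, ⟨M.sec s y, hsec s hs y⟩) ⟨s, hs, y, rfl, rfl⟩
      refine coc_gen hE hcl s _ y _ (Quotient.exact hc.2.1) hc.2.2 ?_
      exact sub_eq_zero.mpr (congrFun h2 _)
    ext y
    · rw [← hD1 a b, ← hD1 a' b']; exact sub_eq_zero.mp (hall x₁ y)
    · rw [← hD2 a b, ← hD2 a' b']; exact sub_eq_zero.mp (hall x₂ y)
  have hcard := Fintype.card_le_of_injective Ψ hinj
  simp only [Fintype.card_prod, Fintype.card_fun, ZMod.card, Fintype.card_coe] at hcard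
  rw [← pow_add, ← pow_add] at hcard
  have := (Nat.pow_le_pow_iff_right (by norm_num : 1 < 2)).mp hcard
  omega

end rank

section freegroup

variable {ι : Type*} (M : SS (FreeGroup ι) Y)

/-- the free group has cocycles with arbitrary values on the basis -/
lemma exists_coc {K : Type*} [AddCommGroup K] (φ : ι → Y → K) :
    ∃ D : FreeGroup ι → Y → K, M.IsCoc D ∧ ∀ i, D (FreeGroup.of i) = φ i := by
  let Φ : FreeGroup ι →* Equiv.Perm (Y × K) := FreeGroup.lift fun i =>
    { toFun := fun z => (M.act (FreeGroup.of i) z.1, z.2 + φ i z.1)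
      invFun := fun z => (M.act (FreeGroup.of i)⁻¹ z.1, z.2 - φ i (M.act (FreeGroup.of i)⁻¹ z.1))
      left_inv := by
        rintro ⟨y, k⟩
        simp only [M.act_inv_act, add_sub_cancel_right]
      right_inv := by
        rintro ⟨y, k⟩
        simp only [M.act_act_inv, sub_add_cancel] }
  have hof : ∀ i y k, Φ (FreeGroup.of i) (y, k) = (M.act (FreeGroup.of i) y, k + φ i y) := by
    intro i y k
    simp [Φ]
  have key : ∀ g : FreeGroup ι, ∀ y k, Φ g (y, k) = (M.act g y, k + (Φ g (y, 0)).2) := by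
    intro g
    induction g using FreeGroup.induction_on with
    | C1 => intro y k; simp
    | of i => intro y k; simp [hof]
    | inv_of i _ =>
      intro y k
      have h1 : ∀ y k, Φ (FreeGroup.of i)⁻¹ (y, k) =
          (M.act (FreeGroup.of i)⁻¹ y, k - φ i (M.act (FreeGroup.of i)⁻¹ y)) := by
        intro y k
        rw [map_inv, Equiv.Perm.inv_eq_iff_eq, hof, M.act_act_inv, sub_add_cancel]
      rw [h1, h1]
      simp [sub_eq_add_neg]
    | mul g h hg hh =>
      intro y k
      rw [map_mul, Equiv.Perm.mul_apply, Equiv.Perm.mul_apply, hh, hg, hh y 0, hg _ (0 + _),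
        M.act_mul]
      simp [add_assoc]
  refine ⟨fun g y => (Φ g (y, 0)).2, ?_, ?_⟩
  · intro g h y
    show (Φ (g * h) (y, 0)).2 = (Φ g (M.act h y, 0)).2 + (Φ h (y, 0)).2
    rw [map_mul, Equiv.Perm.mul_apply, key h y 0, key g _ (0 + _), zero_add, add_comm]
  · intro i
    funext y
    simp [hof]

end freegroup

end SS

end Pool.Agent.H380TR
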